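import Mathlib

set_option autoImplicit false

/-! Points of order three. -/

namespace Pool.Agent.Lib.MP_d8bd92_nt.Iso

open WeierstrassCurve

/-- The abscissa of a point of order three is a root of the `3`-division polynomial. -/
theorem tor3_poly {F : Type*} [Field F] [DecidableEq F] (W : WeierstrassCurve F) (x y : F)
    (h : W.toAffine.Nonsingular x y)
    (hP : addOrderOf (Affine.Point.some _ _ h : W.toAffine.Point) = 3) :
    3 * x ^ 4 + W.b₂ * x ^ 3 + 3 * W.b₄ * x ^ 2 + 3 * W.b₆ * x + W.b₈ = 0 := by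
  have h3 : (3 : ℕ) • (Affine.Point.some _ _ h : W.toAffine.Point) = 0 := by
    rw [← hP]; exact addOrderOf_nsmul_eq_zero _
  have h2 : (Affine.Point.some _ _ h : W.toAffine.Point) + Affine.Point.some _ _ h =
      -Affine.Point.some _ _ h := by
    rw [eq_neg_iff_add_eq_zero, ← h3]
    rw [show (3 : ℕ) = 2 + 1 from rfl, add_nsmul, two_nsmul, one_nsmul]
  have hy : y ≠ W.toAffine.negY x y := by
    intro hy
    rw [Affine.Point.add_self_of_Y_eq hy] at h2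
    have : (Affine.Point.some _ _ h : W.toAffine.Point) = 0 := by
      rw [← neg_neg (Affine.Point.some _ _ h : W.toAffine.Point), ← h2, neg_zero]
    exact Affine.Point.some_ne_zero h this
  rw [Affine.Point.add_self_of_Y_ne hy, Affine.Point.neg_some] at h2
  have hx := (Affine.Point.some.inj h2).1
  rw [Affine.slope_of_Y_ne rfl hy] at hx
  have hE := (Affine.equation_iff _ _).1 h.1
  have hd : y - W.toAffine.negY x y ≠ 0 := sub_ne_zero.2 hy
  unfold Affine.addX at hx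
  have hn : W.toAffine.negY x y = -y - W.a₁ * x - W.a₃ := rfl
  have hS : (3 * x ^ 2 + 2 * W.a₂ * x + W.a₄ - W.a₁ * y) ^ 2 +
      W.a₁ * (3 * x ^ 2 + 2 * W.a₂ * x + W.a₄ - W.a₁ * y) * (y - W.toAffine.negY x y) -
      (W.a₂ + 3 * x) * (y - W.toAffine.negY x y) ^ 2 = 0 := by
    field_simp at hx
    linear_combination hx
  rw [hn] at hS
  have e2 : W.b₂ = W.a₁ ^ 2 + 4 * W.a₂ := rfl
  have e4 : W.b₄ = 2 * W.a₄ + W.a₁ * W.a₃ := rfl
  have e6 : W.b₆ = W.a₃ ^ 2 + 4 * W.a₆ := rfl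
  have e8 : W.b₈ = W.a₁ ^ 2 * W.a₆ + 4 * W.a₂ * W.a₆ - W.a₁ * W.a₃ * W.a₄ + W.a₂ * W.a₃ ^ 2 - W.a₄ ^ 2 := rfl
  rw [e2, e4, e6, e8]
  linear_combination -hS + (-W.a₁ ^ 2 - 4 * W.a₂ - 12 * x) * hE

/-- A rational root of the `3`-division polynomial gives an integer `X = 3 x`. -/
theorem X_of_rat (W : WeierstrassCurve ℤ) (q : ℚ)
    (h : 3 * q ^ 4 + (W.b₂ : ℚ) * q ^ 3 + 3 * (W.b₄ : ℚ) * q ^ 2 + 3 * (W.b₆ : ℚ) * q + (W.b₈ : ℚ) = 0) :
    ∃ X : ℤ, (X : ℚ) = 3 * q ∧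
      X ^ 4 + W.b₂ * X ^ 3 + 9 * W.b₄ * X ^ 2 + 27 * W.b₆ * X + 27 * W.b₈ = 0 := by
  have h1 : (3 * q) ^ 4 + (W.b₂ : ℚ) * (3 * q) ^ 3 + 9 * (W.b₄ : ℚ) * (3 * q) ^ 2 +
      27 * (W.b₆ : ℚ) * (3 * q) + 27 * (W.b₈ : ℚ) = 0 := by
    linear_combination 27 * h
  have hint : _root_.IsIntegral ℤ (3 * q) := by
    refine ⟨Polynomial.X ^ 4 + Polynomial.C W.b₂ * Polynomial.X ^ 3 +
      Polynomial.C (9 * W.b₄) * Polynomial.X ^ 2 + Polynomial.C (27 * W.b₆) * Polynomial.X +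
      Polynomial.C (27 * W.b₈), ?_, ?_⟩
    · monicity!
    · simp only [Polynomial.eval₂_add, Polynomial.eval₂_mul, Polynomial.eval₂_pow,
        Polynomial.eval₂_X, Polynomial.eval₂_C]
      push_cast [eq_intCast]
      linear_combination h1
  obtain ⟨X, hX⟩ := IsIntegrallyClosed.isIntegral_iff.1 hint
  have hX' : (X : ℚ) = 3 * q := by simpa using hX
  refine ⟨X, hX', ?_⟩
  have : ((X ^ 4 + W.b₂ * X ^ 3 + 9 * W.b₄ * X ^ 2 + 27 * W.b₆ * X + 27 * W.b₈ : ℤ) : ℚ) = 0 := by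
    push_cast
    rw [hX']
    exact h1
  exact_mod_cast this

/-- A rational point of order three. -/
theorem X_of_point (W : WeierstrassCurve ℤ) (P : (W.baseChange ℚ).toAffine.Point)
    (hP : addOrderOf P = 3) :
    ∃ X : ℤ, X ^ 4 + W.b₂ * X ^ 3 + 9 * W.b₄ * X ^ 2 + 27 * W.b₆ * X + 27 * W.b₈ = 0 := by
  rcases P with _ | ⟨x, y, h⟩
  · have h0 : (Affine.Point.zero : (W.baseChange ℚ).toAffine.Point) = 0 := rfl
    rw [h0, addOrderOf_zero] at hP
    omega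
  · have h1 := tor3_poly (W.baseChange ℚ) x y h hP
    obtain ⟨X, -, hX⟩ := X_of_rat W x (by
      have e2 : (W.baseChange ℚ).b₂ = (W.b₂ : ℚ) := W.map_b₂ (algebraMap ℤ ℚ)
      have e4 : (W.baseChange ℚ).b₄ = (W.b₄ : ℚ) := W.map_b₄ (algebraMap ℤ ℚ)
      have e6 : (W.baseChange ℚ).b₆ = (W.b₆ : ℚ) := W.map_b₆ (algebraMap ℤ ℚ)
      have e8 : (W.baseChange ℚ).b₈ = (W.b₈ : ℚ) := W.map_b₈ (algebraMap ℤ ℚ)
      rw [e2, e4, e6, e8] at h1
      exact h1)
    exact ⟨X, hX⟩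

theorem isGalois_Qbar : IsGalois ℚ (AlgebraicClosure ℚ) := by
  have h := @IsAlgClosure.isGalois ℚ (AlgebraicClosure ℚ) _ _ (AlgebraicClosure.instAlgebra ℚ)
    (AlgebraicClosure.instIsAlgClosure ℚ) _
  have e : (AlgebraicClosure.instAlgebra ℚ : Algebra ℚ (AlgebraicClosure ℚ)) =
      DivisionRing.toRatAlgebra := Subsingleton.elim _ _
  rw [e] at h
  exact h

/-- A point of order three over a Galois extension `K` of `ℚ` which generates a rational
subgroup. -/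
theorem X_of_subgroup (K : Type*) [Field K] [DecidableEq K] [Algebra ℚ K] [IsGalois ℚ K]
    (W : WeierstrassCurve ℤ)
    (P : (W.baseChange K).toAffine.Point) (hP : addOrderOf P = 3)
    (hσ : ∀ σ : K ≃ₐ[ℚ] K,
      Affine.Point.map (W' := W) (σ : K →ₐ[ℚ] K) P = P ∨
      Affine.Point.map (W' := W) (σ : K →ₐ[ℚ] K) P = -P) :
    ∃ X : ℤ, X ^ 4 + W.b₂ * X ^ 3 + 9 * W.b₄ * X ^ 2 + 27 * W.b₆ * X + 27 * W.b₈ = 0 := by
  rcases P with _ | ⟨x, y, h⟩
  · have h0 : (Affine.Point.zero : (W.baseChange K).toAffine.Point) = 0 := rfl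
    rw [h0, addOrderOf_zero] at hP
    omega
  · have h1 := tor3_poly (W.baseChange K) x y h hP
    have hx : ∀ σ : K ≃ₐ[ℚ] K, σ x = x := by
      intro σ
      rcases hσ σ with h2 | h2
      · rw [Affine.Point.map_some] at h2
        exact (Affine.Point.some.inj h2).1
      · rw [Affine.Point.map_some, Affine.Point.neg_some] at h2
        exact (Affine.Point.some.inj h2).1
    obtain ⟨q, hq⟩ := IntermediateField.mem_bot.1 ((InfiniteGalois.mem_bot_iff_fixed (k := ℚ) x).2 hx)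
    obtain ⟨X, -, hX⟩ := X_of_rat W q (by
      have e2 : (W.baseChange K).b₂ = algebraMap ℚ K (W.b₂ : ℚ) :=
        (W.map_b₂ (algebraMap ℤ K)).trans (IsScalarTower.algebraMap_apply ℤ ℚ K W.b₂)
      have e4 : (W.baseChange K).b₄ = algebraMap ℚ K (W.b₄ : ℚ) :=
        (W.map_b₄ (algebraMap ℤ K)).trans (IsScalarTower.algebraMap_apply ℤ ℚ K W.b₄)
      have e6 : (W.baseChange K).b₆ = algebraMap ℚ K (W.b₆ : ℚ) :=
        (W.map_b₆ (algebraMap ℤ K)).trans (IsScalarTower.algebraMap_apply ℤ ℚ K W.b₆)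
      have e8 : (W.baseChange K).b₈ = algebraMap ℚ K (W.b₈ : ℚ) :=
        (W.map_b₈ (algebraMap ℤ K)).trans (IsScalarTower.algebraMap_apply ℤ ℚ K W.b₈)
      rw [e2, e4, e6, e8, ← hq] at h1
      apply (algebraMap ℚ K).injective
      rw [map_zero, ← h1]
      simp only [map_add, map_mul, map_pow, map_ofNat])
    exact ⟨X, hX⟩

end Pool.Agent.Lib.MP_d8bd92_nt.Iso
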