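import Pool.Agent.Lib.MP_d8bd92_nt.ThG
import Pool.Agent.Lib.MP_d8bd92_nt.Iso.Iso3b

set_option autoImplicit false

/-! Rational subgroups of order five of semistable curves. -/

namespace Pool.Agent.Lib.MP_d8bd92_nt.Iso

open WeierstrassCurve WeierstrassCurve.Affine Pool.Agent.Lib.Szpiro

/-- Abscissas of a point of order five and of its double. -/
theorem five_data {F : Type*} [Field F] [DecidableEq F] {W : Affine F} (x y : F) (h : W.Nonsingular x y)
    (hP : addOrderOf (Point.some x y h) = 5) :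
    ∃ (x2 y2 : F) (h2 : W.Nonsingular x2 y2),
      Point.some x y h + Point.some x y h = Point.some x2 y2 h2 ∧ x - x2 ≠ 0 ∧
      W.c₄ * ((x - x2) ^ 2) ^ 5 =
        W.Δ ^ 2 + 10 * ((x - x2) ^ 2) ^ 3 * W.Δ + 5 * ((x - x2) ^ 2) ^ 6 := by
  have h5 : Point.some x y h + Point.some x y h + Point.some x y h + Point.some x y h + Point.some x y h = 0 := by
    have := addOrderOf_nsmul_eq_zero (Point.some x y h)
    rw [hP] at this
    simpa [succ_nsmul] using this
  have hne : ∀ n : ℕ, 0 < n → n < 5 → n • (Point.some x y h) ≠ 0 := by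
    intro n hn hn7 h0
    have := addOrderOf_le_of_nsmul_eq_zero hn h0
    omega
  have h2 : Point.some x y h + Point.some x y h ≠ 0 := by simpa [succ_nsmul] using hne 2 (by norm_num) (by norm_num)
  have h3 : Point.some x y h + Point.some x y h + Point.some x y h ≠ 0 := by
    simpa [succ_nsmul] using hne 3 (by norm_num) (by norm_num)
  obtain ⟨lam, A1, A2, U, D, ⟨h2', e2⟩, ⟨h3', e3⟩⟩ := exists_multiples h h2 h3
  obtain ⟨hc, hΔ⟩ := D.invariants h.1
  obtain ⟨hA2, hU, ha1, ha3, ha2, htan⟩ := D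
  have hX : x + U * (U - A1) = x - A2 := by
    have hneg : Point.some x y h + Point.some x y h + Point.some x y h =
        -(Point.some x y h + Point.some x y h) := by
      rw [eq_neg_iff_add_eq_zero, ← h5]; abel
    rw [e3, e2] at hneg
    exact (Point.X_eq_iff (h₁ := h3') (h₂ := h2')).mpr (Or.inr hneg)
  have hA2' : A2 = U * (A1 - U) := by linear_combination hX
  refine ⟨_, _, h2', e2, ?_, ?_⟩
  · rw [sub_sub_cancel]; exact hA2
  · rw [sub_sub_cancel, hc, hΔ, hA2']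
    ring

/-- The Galois action on the abscissas. -/
theorem five_sub (K : Type*) [Field K] [DecidableEq K] [Algebra ℚ K] [IsGalois ℚ K]
    (W : WeierstrassCurve ℤ) (P : (W.baseChange K).toAffine.Point) (hP : addOrderOf P = 5)
    (hσ : ∀ σ : K ≃ₐ[ℚ] K, ∃ k : ℕ,
      Affine.Point.map (W' := W) (σ : K →ₐ[ℚ] K) P = k • P) :
    ∃ e : ℚ, e ≠ 0 ∧ (W.c₄ : ℚ) * e ^ 5 = (W.Δ : ℚ) ^ 2 + 10 * e ^ 3 * (W.Δ : ℚ) + 5 * e ^ 6 := by
  rcases P with _ | ⟨x, y, h⟩
  · have h0 : (Affine.Point.zero : (W.baseChange K).toAffine.Point) = 0 := rfl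
    rw [h0, addOrderOf_zero] at hP
    omega
  · obtain ⟨x2, y2, h2, e2, hne, hrel⟩ := five_data x y h hP
    have h5 : (5 : ℕ) • (Point.some x y h : (W.baseChange K).toAffine.Point) = 0 := by
      rw [← hP]; exact addOrderOf_nsmul_eq_zero _
    have hx : ∀ σ : K ≃ₐ[ℚ] K, σ ((x - x2) ^ 2) = (x - x2) ^ 2 := by
      intro σ
      obtain ⟨k, hk⟩ := hσ σ
      have hm2 : Affine.Point.map (W' := W) (σ : K →ₐ[ℚ] K) (Point.some x2 y2 h2) =
          Affine.Point.map (W' := W) (σ : K →ₐ[ℚ] K) (Point.some x y h) +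
          Affine.Point.map (W' := W) (σ : K →ₐ[ℚ] K) (Point.some x y h) := by
        rw [← e2, map_add]
      rw [hk] at hm2
      have hk5 : k • (Point.some x y h : (W.baseChange K).toAffine.Point) =
          (k % 5) • (Point.some x y h : (W.baseChange K).toAffine.Point) := by
        conv_lhs => rw [← Nat.div_add_mod k 5, add_nsmul, mul_nsmul, h5, nsmul_zero, zero_add]
      rw [hk5] at hk hm2
      have hlt : k % 5 < 5 := Nat.mod_lt _ (by norm_num)
      rw [Affine.Point.map_some] at hk hm2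
      set P : (W.baseChange K).toAffine.Point := Point.some x y h with hPdef
      have hP5 : P + P + P + P + P = 0 := by
        rw [← h5]; simp [succ_nsmul]
      have hx1 : σ x = x ∧ σ x2 = x2 ∨ σ x = x2 ∧ σ x2 = x := by
        interval_cases k % 5
        · rw [zero_nsmul] at hk
          exact absurd hk (Affine.Point.some_ne_zero _)
        · left
          rw [one_nsmul] at hk hm2
          rw [e2] at hm2
          exact ⟨(Affine.Point.some.inj hk).1, (Affine.Point.some.inj hm2).1⟩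
        · right
          rw [two_nsmul, e2] at hk
          have h6 : (2 : ℕ) • P + (2 : ℕ) • P = - P := by
            rw [eq_neg_iff_add_eq_zero, ← hP5]; simp only [two_nsmul]; abel
          rw [h6, hPdef, Affine.Point.neg_some] at hm2
          exact ⟨(Affine.Point.some.inj hk).1, (Affine.Point.some.inj hm2).1⟩
        · right
          have h6 : (3 : ℕ) • P = - (P + P) := by
            rw [eq_neg_iff_add_eq_zero, ← hP5]; simp only [succ_nsmul, zero_nsmul, zero_add]; abel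
          have h7 : (3 : ℕ) • P + (3 : ℕ) • P = P := by
            have : (3 : ℕ) • P + (3 : ℕ) • P = (P + P + P + P + P) + P := by
              simp only [succ_nsmul, zero_nsmul, zero_add]; abel
            rw [this, hP5, zero_add]
          rw [h6, e2, Affine.Point.neg_some] at hk
          rw [h7, hPdef] at hm2
          exact ⟨(Affine.Point.some.inj hk).1, (Affine.Point.some.inj hm2).1⟩
        · left
          have h6 : (4 : ℕ) • P = - P := by
            rw [eq_neg_iff_add_eq_zero, ← hP5]; simp only [succ_nsmul, zero_nsmul, zero_add]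
          have h7 : (4 : ℕ) • P + (4 : ℕ) • P = - (P + P) := by
            rw [h6]; abel
          rw [h7, e2, Affine.Point.neg_some] at hm2
          rw [h6, hPdef, Affine.Point.neg_some] at hk
          exact ⟨(Affine.Point.some.inj hk).1, (Affine.Point.some.inj hm2).1⟩
      rw [map_pow, map_sub]
      rcases hx1 with ⟨h8, h9⟩ | ⟨h8, h9⟩
      · rw [h8, h9]
      · rw [h8, h9]; ring
    obtain ⟨q, hq⟩ := IntermediateField.mem_bot.1
      ((InfiniteGalois.mem_bot_iff_fixed (k := ℚ) ((x - x2) ^ 2)).2 hx)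
    have e4 : (W.baseChange K).c₄ = algebraMap ℚ K (W.c₄ : ℚ) :=
      (W.map_c₄ (algebraMap ℤ K)).trans (IsScalarTower.algebraMap_apply ℤ ℚ K W.c₄)
    have eD : (W.baseChange K).Δ = algebraMap ℚ K (W.Δ : ℚ) :=
      (W.map_Δ (algebraMap ℤ K)).trans (IsScalarTower.algebraMap_apply ℤ ℚ K W.Δ)
    refine ⟨q, ?_, ?_⟩
    · rintro rfl
      rw [map_zero] at hq
      exact hne (pow_eq_zero_iff (two_ne_zero)|>.1 hq.symm)
    · apply (algebraMap ℚ K).injective
      rw [← hq] at hrel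
      simp only [map_add, map_mul, map_pow, map_ofNat]
      rw [← e4, ← eD]
      exact hrel

theorem iso5_nonneg (A B v : ℤ) (hAB : A * B = v ^ 2) (h : 0 ≤ A + B) : 0 ≤ A ∧ 0 ≤ B := by
  have hv : 0 ≤ A * B := by rw [hAB]; exact sq_nonneg v
  constructor
  · by_contra hcon
    push Not at hcon
    have hB : 0 < B := by linarith
    exact absurd (mul_neg_of_neg_of_pos hcon hB) (not_lt.2 hv)
  · by_contra hcon
    push Not at hcon
    have hA : 0 < A := by linarith
    exact absurd (mul_neg_of_pos_of_neg hA hcon) (not_lt.2 hv)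

theorem iso5_zero (A t : ℤ) (hA : 0 ≤ A) (h : A = -t ^ 2) : A = 0 ^ 2 := by
  have := sq_nonneg t
  rw [zero_pow two_ne_zero]
  linarith

/-- `u² + (2 v)² = δ²` -/
theorem sq_param (u v δ : ℤ) (huv : IsCoprime u v) (h : u ^ 2 + 4 * v ^ 2 = δ ^ 2) :
    ∃ t s : ℤ, IsCoprime t s ∧ v = t * s ∧ u = t ^ 2 - s ^ 2 := by
  obtain ⟨d, hd0, hd⟩ : ∃ d : ℤ, 0 ≤ d ∧ d ^ 2 = u ^ 2 + 4 * v ^ 2 := ⟨|δ|, abs_nonneg _, by rw [sq_abs, h]⟩
  have hpar : (2 : ℤ) ∣ d - u := by
    have h1 : (2 : ℤ) ∣ (d - u) * (d + u) := ⟨2 * v ^ 2, by linear_combination hd⟩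
    rcases Int.prime_two.dvd_or_dvd h1 with h2 | h2
    · exact h2
    · have : d - u = d + u - 2 * u := by ring
      rw [this]
      exact dvd_sub h2 (dvd_mul_right _ _)
  obtain ⟨B, hB⟩ := hpar
  obtain ⟨A, hA⟩ : ∃ A, A = B + u := ⟨_, rfl⟩
  have hdA : d = A + B := by rw [hA]; linear_combination hB
  have huA : u = A - B := by rw [hA]; ring
  have hAB : A * B = v ^ 2 := by
    have : 4 * (A * B) = 4 * v ^ 2 := by
      rw [hdA, huA] at hd
      linear_combination hd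
    linarith
  have hcop : IsCoprime A B := by
    apply isCoprime_of_prime_dvd
    · rintro ⟨h1, h2⟩
      have hu0 : u = 0 := by rw [huA, h1, h2]; norm_num
      have hv0 : v = 0 := by
        rw [h1, zero_mul] at hAB
        exact pow_eq_zero_iff (two_ne_zero)|>.1 hAB.symm
      rw [hu0, hv0] at huv
      exact absurd (isCoprime_zero_left.1 huv) (by norm_num)
    · intro p hp h1 h2
      have h3 : p ∣ u := by rw [huA]; exact dvd_sub h1 h2
      have h4 : p ∣ v := hp.dvd_of_dvd_pow (by rw [← hAB]; exact Dvd.dvd.mul_right h1 _)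
      exact hp.not_isUnit (huv.isUnit_of_dvd' h3 h4)
  have hA0 : 0 ≤ A ∧ 0 ≤ B := by
    rw [hdA] at hd0
    exact iso5_nonneg A B v hAB hd0
  obtain ⟨t, ht⟩ : ∃ t : ℤ, A = t ^ 2 := by
    obtain ⟨t, ht | ht⟩ := Int.sq_of_gcd_eq_one (Int.isCoprime_iff_gcd_eq_one.1 hcop) hAB
    · exact ⟨t, ht⟩
    · exact ⟨0, iso5_zero A t hA0.1 ht⟩
  obtain ⟨s, hs⟩ : ∃ s : ℤ, B = s ^ 2 := by
    obtain ⟨s, hs | hs⟩ := Int.sq_of_gcd_eq_one (Int.isCoprime_iff_gcd_eq_one.1 hcop.symm) (by rw [mul_comm]; exact hAB)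
    · exact ⟨s, hs⟩
    · exact ⟨0, iso5_zero B s hA0.2 hs⟩
  have hts : IsCoprime t s := by
    rw [ht, hs] at hcop
    exact (IsCoprime.pow_iff (by norm_num) (by norm_num)).1 hcop
  have hv : v ^ 2 = (t * s) ^ 2 := by rw [← hAB, ht, hs]; ring
  rcases sq_eq_sq_iff_eq_or_eq_neg.1 hv with h1 | h1
  · exact ⟨t, s, hts, h1, by rw [huA, ht, hs]⟩
  · exact ⟨t, -s, hts.neg_right, by rw [h1]; ring, by rw [huA, ht, hs]; ring⟩

theorem iso5_sq5 (x y : ℤ) (hxy : x ^ 2 = 5 * y ^ 2) : y = 0 := by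
  by_contra hy
  obtain ⟨k, hk⟩ : y ∣ x := (Int.pow_dvd_pow_iff (n := 2) (by norm_num)).1 ⟨5, by rw [hxy]; ring⟩
  have h1 : k ^ 2 = 5 := by
    apply mul_left_cancel₀ (pow_ne_zero 2 hy)
    rw [hk] at hxy
    linear_combination hxy
  clear hxy hk hy
  have h2 : k ≤ 2 := by
    by_contra hcon
    have h3 : 3 ≤ k := by omega
    have h4 := pow_le_pow_left₀ (by norm_num) h3 2
    omega
  have h3 : -2 ≤ k := by
    by_contra hcon
    have h3 : 3 ≤ -k := by omega
    have h4 := pow_le_pow_left₀ (by norm_num) h3 2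
    rw [neg_sq] at h4
    omega
  interval_cases k <;> omega

theorem iso5_pos1 (α β : ℤ) (hβ : 0 < β) : 0 < α ^ 2 + 22 * α * β + 125 * β ^ 2 := by
  have e : α ^ 2 + 22 * α * β + 125 * β ^ 2 = (α + 11 * β) ^ 2 + 4 * β ^ 2 := by ring
  rw [e]
  have h1 := pow_pos hβ 2
  have h2 := sq_nonneg (α + 11 * β)
  linarith

theorem iso5_pos2 (a β : ℤ) (ha : a ≠ 0) : 0 < 125 * a ^ 2 + 22 * a * β + β ^ 2 := by
  have e : 125 * a ^ 2 + 22 * a * β + β ^ 2 = (β + 11 * a) ^ 2 + 4 * a ^ 2 := by ring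
  rw [e]
  have h1 : 0 < a ^ 2 := by positivity
  have h2 := sq_nonneg (β + 11 * a)
  linarith

theorem iso5_unit (m u δ : ℤ) (hm : IsUnit m) (hu : 0 < u) (h : m * u = δ ^ 2) : m = 1 := by
  rcases Int.isUnit_iff.1 hm with h2 | h2
  · exact h2
  · exfalso
    rw [h2] at h
    have := sq_nonneg δ
    linarith

/-- the two families: `ℤ/5` and `μ₅` -/
theorem iso5 (W : WeierstrassCurve ℤ) (hΔ : W.Δ ≠ 0) (hc : IsCoprime W.c₄ W.Δ) (e : ℚ) (he : e ≠ 0)
    (h : (W.c₄ : ℚ) * e ^ 5 = (W.Δ : ℚ) ^ 2 + 10 * e ^ 3 * (W.Δ : ℚ) + 5 * e ^ 6) :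
    ∃ a b : ℤ, IsCoprime a b ∧
      ((W.c₄ = C45 a b ∧ W.Δ = (a * b) ^ 5 * Q5 a b) ∨
       (W.c₄ = Q5 a b ^ 2 + 250 * (a * b) * Q5 a b + 3125 * (a * b) ^ 2 ∧ W.Δ = a * b * Q5 a b ^ 5)) := by
  have h6 := W.c_relation
  generalize W.c₄ = c at *
  generalize W.Δ = D at *
  generalize W.c₆ = g at *
  -- `e = n / d`, `D / e ^ 3 = α / β`
  obtain ⟨n, d, hd0, hnd, hed⟩ : ∃ n d : ℤ, 0 < d ∧ IsCoprime n d ∧ e = (n : ℚ) / d :=
    ⟨e.num, e.den, by exact_mod_cast e.den_pos, by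
      rw [Int.isCoprime_iff_gcd_eq_one]
      have := e.reduced
      simpa [Int.gcd, Nat.Coprime] using this, by exact_mod_cast (Rat.num_div_den e).symm⟩
  obtain ⟨r, hr⟩ : ∃ r : ℚ, r = (D : ℚ) / e ^ 3 := ⟨_, rfl⟩
  obtain ⟨α, β, hβ0, hαβ, hrd⟩ : ∃ n d : ℤ, 0 < d ∧ IsCoprime n d ∧ r = (n : ℚ) / d :=
    ⟨r.num, r.den, by exact_mod_cast r.den_pos, by
      rw [Int.isCoprime_iff_gcd_eq_one]
      have := r.reduced
      simpa [Int.gcd, Nat.Coprime] using this, by exact_mod_cast (Rat.num_div_den r).symm⟩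
  have hdq : (d : ℚ) ≠ 0 := by exact_mod_cast hd0.ne'
  have hβq : (β : ℚ) ≠ 0 := by exact_mod_cast hβ0.ne'
  have hn0 : n ≠ 0 := by
    rintro rfl
    rw [Int.cast_zero, zero_div] at hed
    exact he hed
  have hnq : (n : ℚ) ≠ 0 := by exact_mod_cast hn0
  have hDr : (D : ℚ) = r * e ^ 3 := by
    rw [hr]
    field_simp
  have hcr : (c : ℚ) = e * (r ^ 2 + 10 * r + 5) := by
    have h1 : (c : ℚ) * e ^ 5 = (e * (r ^ 2 + 10 * r + 5)) * e ^ 5 := by
      rw [h, hDr]; ring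
    exact mul_right_cancel₀ (pow_ne_zero 5 he) h1
  -- integral relations
  have i1 : n ^ 3 * α = D * β * d ^ 3 := by
    have : (n : ℚ) ^ 3 * α = D * β * d ^ 3 := by
      rw [hDr, hed, hrd]
      field_simp
    exact_mod_cast this
  have i2 : n * (α ^ 2 + 10 * α * β + 5 * β ^ 2) = c * β ^ 2 * d := by
    have : (n : ℚ) * (α ^ 2 + 10 * α * β + 5 * β ^ 2) = c * β ^ 2 * d := by
      rw [hcr, hed, hrd]
      field_simp
    exact_mod_cast this
  have i3 : n ^ 3 * (α ^ 2 + 22 * α * β + 125 * β ^ 2) * (α ^ 2 + 4 * α * β - β ^ 2) ^ 2 =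
      g ^ 2 * β ^ 6 * d ^ 3 := by
    have h7 : ((g ^ 2 : ℤ) : ℚ) = ((c ^ 3 - 1728 * D : ℤ) : ℚ) := by
      have : g ^ 2 = c ^ 3 - 1728 * D := by linear_combination h6
      rw [this]
    push_cast at h7
    have : (n : ℚ) ^ 3 * (α ^ 2 + 22 * α * β + 125 * β ^ 2) * (α ^ 2 + 4 * α * β - β ^ 2) ^ 2 =
        g ^ 2 * β ^ 6 * d ^ 3 := by
      rw [h7, hcr, hDr, hed, hrd]
      field_simp
      ring
    exact_mod_cast this
  -- `β ^ 2 ∣ n`
  have hcop1 : IsCoprime (β ^ 2) (α ^ 2 + 10 * α * β + 5 * β ^ 2) := by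
    have h1 : IsCoprime β (α ^ 2 + 10 * α * β + 5 * β ^ 2) := by
      have h2 : α ^ 2 + 10 * α * β + 5 * β ^ 2 = α ^ 2 + β * (10 * α + 5 * β) := by ring
      rw [h2]
      exact IsCoprime.add_mul_left_right (hαβ.symm.pow_right) _
    exact h1.pow_left
  obtain ⟨m, hm⟩ : β ^ 2 ∣ n := hcop1.dvd_of_dvd_mul_right ⟨c * d, by rw [i2]; ring⟩
  have hβ2 : β ^ 2 ≠ 0 := pow_ne_zero 2 hβ0.ne'
  have j2 : m * (α ^ 2 + 10 * α * β + 5 * β ^ 2) = c * d := by
    apply mul_left_cancel₀ hβ2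
    rw [hm] at i2
    linear_combination i2
  have j1 : β ^ 5 * m ^ 3 * α = D * d ^ 3 := by
    apply mul_left_cancel₀ hβ0.ne'
    rw [hm] at i1
    linear_combination i1
  have j3 : m ^ 3 * (α ^ 2 + 22 * α * β + 125 * β ^ 2) * (α ^ 2 + 4 * α * β - β ^ 2) ^ 2 = g ^ 2 * d ^ 3 := by
    apply mul_left_cancel₀ (pow_ne_zero 6 hβ0.ne')
    rw [hm] at i3
    linear_combination i3
  have hmd : IsCoprime m d := by
    rw [hm] at hnd
    exact hnd.of_mul_left_right
  have hmu : IsUnit m := by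
    have h1 : m ∣ c := hmd.dvd_of_dvd_mul_right ⟨_, j2.symm⟩
    have h2 : m ∣ D := (hmd.pow_right (n := 3)).dvd_of_dvd_mul_right ⟨β ^ 5 * m ^ 2 * α, by rw [← j1]; ring⟩
    exact hc.isUnit_of_dvd' h1 h2
  have hm2 : m ^ 2 = 1 := by
    rcases Int.isUnit_iff.1 hmu with h1 | h1 <;> rw [h1] <;> norm_num
  have hdβ : IsCoprime d β := by
    rw [hm] at hnd
    exact ((IsCoprime.pow_left_iff (by norm_num)).1 hnd.of_mul_left_left).symm
  have hnd3 : IsCoprime (d ^ 3) (β ^ 5 * m ^ 3) :=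
    (hdβ.pow_right.mul_right hmd.symm.pow_right).pow_left
  obtain ⟨a', ha'⟩ : d ^ 3 ∣ α := hnd3.dvd_of_dvd_mul_left ⟨D, by rw [j1]; ring⟩
  have hd5 : d ∣ 5 := by
    have h1 : d ∣ m * β ^ 2 * 5 := by
      have h2 : m * β ^ 2 * 5 = c * d - m * (α * (α + 10 * β)) := by linear_combination j2
      rw [h2]
      apply dvd_sub (dvd_mul_left _ _)
      rw [ha']
      exact ⟨m * (d ^ 2 * a' * (d ^ 3 * a' + 10 * β)), by ring⟩
    exact (hmd.symm.mul_right hdβ.pow_right).dvd_of_dvd_mul_left h1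
  have hsq5 := iso5_sq5
  have hm3 : m ^ 3 = m := by rw [pow_succ, hm2, one_mul]
  have hmpos := fun u δ : ℤ => iso5_unit m u δ hmu
  have hd15 : d = 1 ∨ d = 5 := by
    have h1 : d ≤ 5 := Int.le_of_dvd (by norm_num) hd5
    interval_cases d
    · left; rfl
    · omega
    · omega
    · omega
    · right; rfl
  rw [hm3] at j1 j3
  rcases hd15 with rfl | rfl
  · -- `d = 1`
    have hz : α ^ 2 + 4 * α * β - β ^ 2 ≠ 0 := by
      intro h1
      exact hβ0.ne' (hsq5 (α + 2 * β) β (by linear_combination h1))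
    obtain ⟨δ, hδ⟩ : α ^ 2 + 4 * α * β - β ^ 2 ∣ g :=
      (Int.pow_dvd_pow_iff (n := 2) (by norm_num)).1 ⟨m * (α ^ 2 + 22 * α * β + 125 * β ^ 2), by linear_combination -j3⟩
    have h1 : m * (α ^ 2 + 22 * α * β + 125 * β ^ 2) = δ ^ 2 := by
      apply mul_left_cancel₀ (pow_ne_zero 2 hz)
      rw [hδ] at j3
      linear_combination j3
    have hpos := iso5_pos1 α β hβ0
    have hm1 := hmpos _ _ hpos h1
    rw [hm1] at j1 j2 h1
    obtain ⟨t, s, hts, e1, e2⟩ := sq_param (α + 11 * β) β δ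
      (by
        have := hαβ.add_mul_left_left 11
        rwa [mul_comm β 11] at this) (by linear_combination h1)
    refine ⟨t, s, hts, Or.inl ⟨?_, ?_⟩⟩
    · have h2 : α = t ^ 2 - s ^ 2 - 11 * (t * s) := by rw [← e1, ← e2]; ring
      have h3 : c = α ^ 2 + 10 * α * β + 5 * β ^ 2 := by linear_combination -j2
      rw [h3, h2, e1]
      unfold C45
      ring
    · have h2 : α = t ^ 2 - s ^ 2 - 11 * (t * s) := by rw [← e1, ← e2]; ring
      have h3 : D = β ^ 5 * α := by linear_combination -j1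
      rw [h3, h2, e1]
      unfold Q5
      ring
  · -- `d = 5`
    have ha'' : α = 125 * a' := by rw [ha']; norm_num
    have k1 : m * β ^ 5 * a' = D := by
      have : 125 * (m * β ^ 5 * a') = 125 * D := by rw [ha''] at j1; linear_combination j1
      linarith
    have k2 : m * (3125 * a' ^ 2 + 250 * a' * β + β ^ 2) = c := by
      have : 5 * (m * (3125 * a' ^ 2 + 250 * a' * β + β ^ 2)) = 5 * c := by
        rw [ha''] at j2; linear_combination j2
      linarith
    have k3 : m * (125 * a' ^ 2 + 22 * a' * β + β ^ 2) * (15625 * a' ^ 2 + 500 * a' * β - β ^ 2) ^ 2 = g ^ 2 := by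
      have : 125 * (m * (125 * a' ^ 2 + 22 * a' * β + β ^ 2) * (15625 * a' ^ 2 + 500 * a' * β - β ^ 2) ^ 2) =
          125 * g ^ 2 := by
        rw [ha''] at j3; linear_combination j3
      linarith
    have hz : 15625 * a' ^ 2 + 500 * a' * β - β ^ 2 ≠ 0 := by
      intro h1
      exact hβ0.ne' (hsq5 (125 * a' + 2 * β) β (by linear_combination h1))
    obtain ⟨δ, hδ⟩ : 15625 * a' ^ 2 + 500 * a' * β - β ^ 2 ∣ g :=
      (Int.pow_dvd_pow_iff (n := 2) (by norm_num)).1 ⟨m * (125 * a' ^ 2 + 22 * a' * β + β ^ 2), by linear_combination -k3⟩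
    have h1 : m * (125 * a' ^ 2 + 22 * a' * β + β ^ 2) = δ ^ 2 := by
      apply mul_left_cancel₀ (pow_ne_zero 2 hz)
      rw [hδ] at k3
      linear_combination k3
    have ha0 : a' ≠ 0 := by
      rintro rfl
      rw [mul_zero] at k1
      exact hΔ k1.symm
    have hpos := iso5_pos2 a' β ha0
    have hm1 := hmpos _ _ hpos h1
    rw [hm1] at k1 k2 h1
    have hβa : IsCoprime β a' := by
      rw [ha''] at hαβ
      exact hαβ.symm.of_mul_right_right
    obtain ⟨t, s, hts, e1, e2⟩ := sq_param (β + 11 * a') a' δ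
      (by
        have := hβa.add_mul_left_left 11
        rwa [mul_comm a' 11] at this) (by linear_combination h1)
    have h2 : β = Q5 t s := by
      unfold Q5
      linear_combination e2 - 11 * e1
    refine ⟨t, s, hts, Or.inr ⟨?_, ?_⟩⟩
    · rw [← h2, ← e1]
      linear_combination -k2
    · rw [← h2, ← e1]
      linear_combination -k1

end Pool.Agent.Lib.MP_d8bd92_nt.Iso
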