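import Pool.Agent.Lib.MP_d8bd92_nt.ThG
import Pool.Agent.Lib.MP_d8bd92_nt.Iso.Iso5

set_option autoImplicit false

/-!
Semistable curves with a rational subgroup of order five, counted by conductor.
-/

namespace Pool.Agent.Lib.MP_d8bd92_nt

open Finset Pool.Agent.Lib.Szpiro WeierstrassCurve WeierstrassCurve.Affine

/-- the invariants of the semistable curves with the property `Q` -/
def predSet (Q : WeierstrassCurve ℤ → Prop) (Y κ : ℝ) : Set (ℤ × ℤ) :=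
  {c | ∃ W : WeierstrassCurve ℤ, W.c₄ = c.1 ∧ W.c₆ = c.2 ∧ W.Δ ≠ 0 ∧ IsCoprime W.c₄ W.Δ ∧
    Q W ∧ ((rd W.Δ.natAbs : ℕ) : ℝ) ≤ Y ∧ ((W.Δ.natAbs : ℕ) : ℝ) ≤ Y ^ κ}

open scoped Classical in
/-- a Galois stable subgroup of order `p` (a rational isogeny of prime degree `p`) -/
def RatSub (p : ℕ) (W : WeierstrassCurve ℤ) : Prop :=
  ∃ P : (W.baseChange (AlgebraicClosure ℚ)).toAffine.Point, addOrderOf P = p ∧
    ∀ σ : AlgebraicClosure ℚ ≃ₐ[ℚ] AlgebraicClosure ℚ, ∃ k : ℕ,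
      Affine.Point.map (W' := W) (σ : AlgebraicClosure ℚ →ₐ[ℚ] AlgebraicClosure ℚ) P = k • P

namespace Th

/-- counting curves with three coprime factors of the discriminant -/
theorem three_factors_pred (Q : WeierstrassCurve ℤ → Prop) (G T H : ℤ → ℤ → ℤ)
    (hpar : ∀ W : WeierstrassCurve ℤ, W.Δ ≠ 0 → IsCoprime W.c₄ W.Δ →
      Q W →
      ∃ a b : ℤ, W.c₄ = G a b ∧ W.Δ = T a b ∧ a ∣ W.Δ ∧ b ∣ W.Δ ∧ H a b ∣ W.Δ ∧
        IsCoprime a b ∧ IsCoprime a (H a b) ∧ IsCoprime b (H a b))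
    (h1 : ∀ (s : Bool × Bool) (i j : ℕ) (F : Finset (ℕ × ℕ)), (∀ x ∈ F, x.1 = i ∧
      (H (sg s.1 * (x.1 : ℤ)) (sg s.2 * (x.2 : ℤ))).natAbs = j) → F.card ≤ 4)
    (h2 : ∀ (s : Bool × Bool) (i j : ℕ) (F : Finset (ℕ × ℕ)), (∀ x ∈ F, x.2 = i ∧
      (H (sg s.1 * (x.1 : ℤ)) (sg s.2 * (x.2 : ℤ))).natAbs = j) → F.card ≤ 4)
    (κ ε : ℝ) (hκ : 0 < κ) (hε : 0 < ε) : ∃ C : ℝ, 0 < C ∧ ∀ Y : ℝ, 1 ≤ Y →
    (predSet Q Y κ).Finite ∧ ((predSet Q Y κ).ncard : ℝ) ≤ C * Y ^ (2 / 3 + ε) := by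
  classical
  obtain ⟨σ, hσ⟩ : ∃ σ : ℝ, σ = ε / κ := ⟨_, rfl⟩
  have hσ0 : 0 < σ := by rw [hσ]; positivity
  obtain ⟨C1, hC1, hmain⟩ := three_count σ hσ0
  refine ⟨32 * C1, by positivity, ?_⟩
  intro Y hY
  have hY0 : 0 < Y := by linarith
  have hpar' : ∀ c : ℤ × ℤ, ∃ t : ℤ × ℤ, c ∈ predSet Q Y κ → (t.1 ≠ 0 ∧ t.2 ≠ 0 ∧ H t.1 t.2 ≠ 0 ∧
      t.1.natAbs ≤ ⌊Y ^ κ⌋₊ ∧ t.2.natAbs ≤ ⌊Y ^ κ⌋₊ ∧ (H t.1 t.2).natAbs ≤ ⌊Y ^ κ⌋₊ ∧
      ((rd t.1.natAbs : ℕ) : ℝ) * ((rd t.2.natAbs : ℕ) : ℝ) * ((rd (H t.1 t.2).natAbs : ℕ) : ℝ) ≤ Y ∧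
      c.1 = G t.1 t.2 ∧ c.2 ^ 2 = (G t.1 t.2) ^ 3 - 1728 * T t.1 t.2) := by
    intro c
    by_cases hc : c ∈ predSet Q Y κ
    · obtain ⟨W, h4, h6, hΔ, hss, hP, hN, hD⟩ := hc
      obtain ⟨a, b, e1, e2, e3, e4, e5, e6, e7, e8⟩ := hpar W hΔ hss hP
      refine ⟨(a, b), fun _ => ?_⟩
      have hnz : ∀ x : ℤ, x ∣ W.Δ → x ≠ 0 := by
        rintro x hx rfl
        exact hΔ (zero_dvd_iff.mp hx)
      have hfl : ∀ x : ℤ, x ∣ W.Δ → x.natAbs ≤ ⌊Y ^ κ⌋₊ := by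
        intro x hx
        apply Nat.le_floor
        refine le_trans ?_ hD
        exact_mod_cast Nat.le_of_dvd (Int.natAbs_pos.mpr hΔ) (Int.natAbs_dvd_natAbs.mpr hx)
      refine ⟨hnz _ e3, hnz _ e4, hnz _ e5, hfl _ e3, hfl _ e4, hfl _ e5, ?_, ?_, ?_⟩
      · have h7 := rd_three a.natAbs b.natAbs (H a b).natAbs W.Δ.natAbs (Int.natAbs_ne_zero.mpr hΔ)
          (Int.natAbs_dvd_natAbs.mpr e3) (Int.natAbs_dvd_natAbs.mpr e4)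
          (Int.natAbs_dvd_natAbs.mpr e5) (Int.isCoprime_iff_nat_coprime.mp e6)
          (Int.isCoprime_iff_nat_coprime.mp e7) (Int.isCoprime_iff_nat_coprime.mp e8)
        refine le_trans ?_ hN
        exact_mod_cast h7
      · rw [← h4, e1]
      · have h8 := W.c_relation
        rw [← h6]
        simp only
        rw [← e1, ← e2]
        linear_combination h8
    · exact ⟨0, fun h => absurd h hc⟩
  choose t ht using hpar'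
  have hZ1 : 1 ≤ ⌊Y ^ κ⌋₊ := by
    apply Nat.le_floor
    rw [Nat.cast_one]
    exact Real.one_le_rpow hY hκ.le
  have hZR : ((⌊Y ^ κ⌋₊ : ℕ) : ℝ) ≤ Y ^ κ := Nat.floor_le (by positivity)
  have hZσ : ((⌊Y ^ κ⌋₊ : ℕ) : ℝ) ^ σ ≤ Y ^ ε := by
    calc ((⌊Y ^ κ⌋₊ : ℕ) : ℝ) ^ σ ≤ (Y ^ κ) ^ σ :=
          Real.rpow_le_rpow (by positivity) hZR hσ0.le
      _ = Y ^ ε := by
          rw [← Real.rpow_mul hY0.le, hσ]
          congr 1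
          field_simp
  have key := transfer (predSet Q Y κ) t ⌊Y ^ κ⌋₊ (4 * C1 * Y ^ (2 / 3 + ε)) ?_ ?_ ?_
  · refine ⟨key.1, key.2.trans (le_of_eq (by ring))⟩
  · intro c hc c' hc' hcc
    simp only [Prod.mk.injEq] at hcc
    obtain ⟨k1, k2⟩ := hcc
    obtain ⟨_, _, _, _, _, _, _, e1, e2⟩ := ht c hc
    obtain ⟨_, _, _, _, _, _, _, e1', e2'⟩ := ht c' hc'
    rw [k1] at e1 e2
    have k3 : c.1 = c'.1 := by rw [e1, e1']
    have k4 : c.2 ^ 2 = c'.2 ^ 2 := by rw [e2, e2']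
    have k5 : c.2 = c'.2 := by
      rw [decide_eq_decide] at k2
      rcases sq_eq_sq_iff_eq_or_eq_neg.mp k4 with h | h
      · exact h
      · omega
    exact Prod.ext k3 k5
  · intro c hc
    obtain ⟨_, _, _, h5, h6, _⟩ := ht c hc
    exact ⟨h5, h6⟩
  · intro s S hS
    set w : ℕ × ℕ → ℕ := fun x => (H (sg s.1 * (x.1 : ℤ)) (sg s.2 * (x.2 : ℤ))).natAbs with hw
    have h := hmain ⌊Y ^ κ⌋₊ 4 Y S (fun x => x.1) (fun x => x.2) w hZ1 hY ?_ ?_ ?_ ?_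
    · refine h.trans ?_
      have h1 : Y ^ (2 / 3 + ε) = Y ^ ε * Y ^ (2 / 3 : ℝ) := by
        rw [← Real.rpow_add hY0]
        congr 1
        ring
      rw [h1]
      push_cast
      calc C1 * 4 * ((⌊Y ^ κ⌋₊ : ℕ) : ℝ) ^ σ * Y ^ (2 / 3 : ℝ) ≤ C1 * 4 * Y ^ ε * Y ^ (2 / 3 : ℝ) := by
            gcongr
        _ = 4 * C1 * (Y ^ ε * Y ^ (2 / 3 : ℝ)) := by ring
    · intro x hx
      obtain ⟨c, hc, k1, k2⟩ := hS x hx
      obtain ⟨g1, g2, g3, g4, g5, g6, g7, _⟩ := ht c hc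
      have a1 : (t c).1.natAbs = x.1 := by
        rw [k1, Int.natAbs_mul, sg_abs, one_mul, Int.natAbs_natCast]
      have a2 : (t c).2.natAbs = x.2 := by
        rw [k2, Int.natAbs_mul, sg_abs, one_mul, Int.natAbs_natCast]
      have a3 : (H (t c).1 (t c).2).natAbs = w x := by
        rw [hw, k1, k2]
      rw [a1] at g4 g7
      rw [a2] at g5 g7
      rw [a3] at g6 g7
      refine ⟨?_, g4, ?_, g5, ?_, g6, g7⟩
      · rw [← a1]; exact Int.natAbs_pos.mpr g1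
      · rw [← a2]; exact Int.natAbs_pos.mpr g2
      · rw [← a3]; exact Int.natAbs_pos.mpr g3
    · intro i j
      refine le_trans ?_ (by norm_num : 1 ≤ 4)
      rw [Finset.card_le_one]
      intro x hx y hy
      rw [Finset.mem_filter] at hx hy
      exact Prod.ext (hx.2.1.trans hy.2.1.symm) (hx.2.2.trans hy.2.2.symm)
    · intro i j
      apply h1 s i j
      intro x hx
      rw [Finset.mem_filter] at hx
      exact hx.2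
    · intro i j
      apply h2 s i j
      intro x hx
      rw [Finset.mem_filter] at hx
      exact hx.2

/-- the two pairs of fibre bounds for `Q5` -/
theorem Q5_fib1 (s : Bool × Bool) (i j : ℕ) (F : Finset (ℕ × ℕ)) (hF : ∀ x ∈ F, x.1 = i ∧
      (Q5 (sg s.1 * (x.1 : ℤ)) (sg s.2 * (x.2 : ℤ))).natAbs = j) : F.card ≤ 4 := by
  apply card_le_four F (fun x => Q5 (sg s.1 * (x.1 : ℤ)) (sg s.2 * (x.2 : ℤ))) j
    (fun x hx => (hF x hx).2)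
  intro x hx y hy z hz hxy hxz
  have a1 := (hF x hx).1
  have a2 := (hF y hy).1
  have a3 := (hF z hz).1
  simp only [Q5] at hxy hxz
  rw [a1] at hxy hxz
  rw [a2] at hxy
  rw [a3] at hxz
  by_contra hcon
  push Not at hcon
  obtain ⟨c1, c2, c3⟩ := hcon
  have d1 : (x.2 : ℤ) ≠ y.2 := fun h => c1 (Prod.ext (a1.trans a2.symm) (by exact_mod_cast h))
  have d2 : (x.2 : ℤ) ≠ z.2 := fun h => c2 (Prod.ext (a1.trans a3.symm) (by exact_mod_cast h))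
  have d3 : (y.2 : ℤ) ≠ z.2 := fun h => c3 (Prod.ext (a2.trans a3.symm) (by exact_mod_cast h))
  have hs2 : sg s.2 ^ 2 = 1 := by rcases s.2 <;> simp [sg]
  have f1 : ((x.2 : ℤ) - y.2) * (11 * (sg s.1 * i) * sg s.2 + (x.2 + y.2)) = 0 := by
    linear_combination -hxy - ((x.2 : ℤ) ^ 2 - (y.2 : ℤ) ^ 2) * hs2
  have f2 : ((x.2 : ℤ) - z.2) * (11 * (sg s.1 * i) * sg s.2 + (x.2 + z.2)) = 0 := by
    linear_combination -hxz - ((x.2 : ℤ) ^ 2 - (z.2 : ℤ) ^ 2) * hs2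
  have g1 := (mul_eq_zero.mp f1).resolve_left (sub_ne_zero.mpr d1)
  have g2 := (mul_eq_zero.mp f2).resolve_left (sub_ne_zero.mpr d2)
  apply d3
  linarith

theorem Q5_fib2 (s : Bool × Bool) (i j : ℕ) (F : Finset (ℕ × ℕ)) (hF : ∀ x ∈ F, x.2 = i ∧
      (Q5 (sg s.1 * (x.1 : ℤ)) (sg s.2 * (x.2 : ℤ))).natAbs = j) : F.card ≤ 4 := by
  apply card_le_four F (fun x => Q5 (sg s.1 * (x.1 : ℤ)) (sg s.2 * (x.2 : ℤ))) j
    (fun x hx => (hF x hx).2)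
  intro x hx y hy z hz hxy hxz
  have a1 := (hF x hx).1
  have a2 := (hF y hy).1
  have a3 := (hF z hz).1
  simp only [Q5] at hxy hxz
  rw [a1] at hxy hxz
  rw [a2] at hxy
  rw [a3] at hxz
  by_contra hcon
  push Not at hcon
  obtain ⟨c1, c2, c3⟩ := hcon
  have d1 : (x.1 : ℤ) ≠ y.1 := fun h => c1 (Prod.ext (by exact_mod_cast h) (a1.trans a2.symm))
  have d2 : (x.1 : ℤ) ≠ z.1 := fun h => c2 (Prod.ext (by exact_mod_cast h) (a1.trans a3.symm))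
  have d3 : (y.1 : ℤ) ≠ z.1 := fun h => c3 (Prod.ext (by exact_mod_cast h) (a2.trans a3.symm))
  have hs1 : sg s.1 ^ 2 = 1 := by rcases s.1 <;> simp [sg]
  have f1 : ((x.1 : ℤ) - y.1) * ((x.1 + y.1) - 11 * (sg s.2 * i) * sg s.1) = 0 := by
    linear_combination hxy - ((x.1 : ℤ) ^ 2 - (y.1 : ℤ) ^ 2) * hs1
  have f2 : ((x.1 : ℤ) - z.1) * ((x.1 + z.1) - 11 * (sg s.2 * i) * sg s.1) = 0 := by
    linear_combination hxz - ((x.1 : ℤ) ^ 2 - (z.1 : ℤ) ^ 2) * hs1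
  have g1 := (mul_eq_zero.mp f1).resolve_left (sub_ne_zero.mpr d1)
  have g2 := (mul_eq_zero.mp f2).resolve_left (sub_ne_zero.mpr d2)
  apply d3
  linarith

theorem Q5_cop1 {a b : ℤ} (hab : IsCoprime a b) : IsCoprime a (Q5 a b) := by
  have h : Q5 a b = -b ^ 2 + a * (a - 11 * b) := by unfold Q5; ring
  rw [h]
  exact IsCoprime.add_mul_left_right ((hab.pow_right (n := 2)).neg_right) _

theorem Q5_cop2 {a b : ℤ} (hab : IsCoprime a b) : IsCoprime b (Q5 a b) := by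
  have h : Q5 a b = a ^ 2 + b * (-(11 * a) - b) := by unfold Q5; ring
  rw [h]
  exact IsCoprime.add_mul_left_right (hab.symm.pow_right (n := 2)) _

/-- union of two predicates -/
theorem predSet_or (Q Q' : WeierstrassCurve ℤ → Prop) (κ e : ℝ)
    (h : ∃ C : ℝ, 0 < C ∧ ∀ Y : ℝ, 1 ≤ Y → (predSet Q Y κ).Finite ∧ ((predSet Q Y κ).ncard : ℝ) ≤ C * Y ^ e)
    (h' : ∃ C : ℝ, 0 < C ∧ ∀ Y : ℝ, 1 ≤ Y → (predSet Q' Y κ).Finite ∧ ((predSet Q' Y κ).ncard : ℝ) ≤ C * Y ^ e) :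
    ∃ C : ℝ, 0 < C ∧ ∀ Y : ℝ, 1 ≤ Y → (predSet (fun W => Q W ∨ Q' W) Y κ).Finite ∧
      ((predSet (fun W => Q W ∨ Q' W) Y κ).ncard : ℝ) ≤ C * Y ^ e := by
  obtain ⟨C, hC, h⟩ := h
  obtain ⟨C', hC', h'⟩ := h'
  refine ⟨C + C', by positivity, fun Y hY => ?_⟩
  obtain ⟨a1, a2⟩ := h Y hY
  obtain ⟨b1, b2⟩ := h' Y hY
  have hsub : predSet (fun W => Q W ∨ Q' W) Y κ ⊆ predSet Q Y κ ∪ predSet Q' Y κ := by
    rintro c ⟨W, h4, h6, hΔ, hss, hQ | hQ, hN, hD⟩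
    · exact Or.inl ⟨W, h4, h6, hΔ, hss, hQ, hN, hD⟩
    · exact Or.inr ⟨W, h4, h6, hΔ, hss, hQ, hN, hD⟩
  have hfin := (a1.union b1).subset hsub
  refine ⟨hfin, ?_⟩
  have k1 := Set.ncard_le_ncard hsub (a1.union b1)
  have k2 := Set.ncard_union_le (predSet Q Y κ) (predSet Q' Y κ)
  have k3 : ((predSet (fun W => Q W ∨ Q' W) Y κ).ncard : ℝ) ≤ (predSet Q Y κ).ncard + (predSet Q' Y κ).ncard := by
    exact_mod_cast k1.trans k2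
  rw [add_mul]
  linarith

theorem predSet_mono (Q Q' : WeierstrassCurve ℤ → Prop)
    (hQ : ∀ W : WeierstrassCurve ℤ, W.Δ ≠ 0 → IsCoprime W.c₄ W.Δ → Q W → Q' W) (κ e : ℝ)
    (h : ∃ C : ℝ, 0 < C ∧ ∀ Y : ℝ, 1 ≤ Y → (predSet Q' Y κ).Finite ∧ ((predSet Q' Y κ).ncard : ℝ) ≤ C * Y ^ e) :
    ∃ C : ℝ, 0 < C ∧ ∀ Y : ℝ, 1 ≤ Y → (predSet Q Y κ).Finite ∧ ((predSet Q Y κ).ncard : ℝ) ≤ C * Y ^ e := by
  obtain ⟨C, hC, h⟩ := h
  refine ⟨C, hC, fun Y hY => ?_⟩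
  obtain ⟨a1, a2⟩ := h Y hY
  have hsub : predSet Q Y κ ⊆ predSet Q' Y κ := by
    rintro c ⟨W, h4, h6, hΔ, hss, h1, hN, hD⟩
    exact ⟨W, h4, h6, hΔ, hss, hQ W hΔ hss h1, hN, hD⟩
  refine ⟨a1.subset hsub, ?_⟩
  have k1 := Set.ncard_le_ncard hsub a1
  have k2 : ((predSet Q Y κ).ncard : ℝ) ≤ (predSet Q' Y κ).ncard := by exact_mod_cast k1
  linarith

end Th

open Th Iso in
/-- Semistable curves with a rational isogeny of degree five. -/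
theorem subSet_five (κ ε : ℝ) (hκ : 0 < κ) (hε : 0 < ε) : ∃ C : ℝ, 0 < C ∧ ∀ Y : ℝ, 1 ≤ Y →
    (predSet (RatSub 5) Y κ).Finite ∧ ((predSet (RatSub 5) Y κ).ncard : ℝ) ≤ C * Y ^ (2 / 3 + ε) := by
  apply predSet_mono (RatSub 5)
    (fun W => (∃ a b : ℤ, IsCoprime a b ∧ W.c₄ = C45 a b ∧ W.Δ = (a * b) ^ 5 * Q5 a b) ∨
      (∃ a b : ℤ, IsCoprime a b ∧ W.c₄ = Q5 a b ^ 2 + 250 * (a * b) * Q5 a b + 3125 * (a * b) ^ 2 ∧
        W.Δ = a * b * Q5 a b ^ 5))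
  · intro W hΔ hc hW
    obtain ⟨P, hP, hσ⟩ := hW
    have := isGalois_Qbar
    classical
    obtain ⟨e, he, h⟩ := five_sub (AlgebraicClosure ℚ) W P hP hσ
    obtain ⟨a, b, hab, h1 | h1⟩ := iso5 W hΔ hc e he h
    · exact Or.inl ⟨a, b, hab, h1⟩
    · exact Or.inr ⟨a, b, hab, h1⟩
  · apply predSet_or
    · apply three_factors_pred _ C45 (fun a b => (a * b) ^ 5 * Q5 a b) Q5 ?_ Q5_fib1 Q5_fib2 κ ε hκ hε
      rintro W hΔ hc ⟨a, b, hab, e1, e2⟩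
      refine ⟨a, b, e1, e2, ?_, ?_, ?_, hab, Q5_cop1 hab, Q5_cop2 hab⟩
      · rw [e2]; exact Dvd.dvd.mul_right (dvd_pow (dvd_mul_right _ _) (by norm_num)) _
      · rw [e2]; exact Dvd.dvd.mul_right (dvd_pow (dvd_mul_left _ _) (by norm_num)) _
      · rw [e2]; exact dvd_mul_left _ _
    · apply three_factors_pred _ (fun a b => Q5 a b ^ 2 + 250 * (a * b) * Q5 a b + 3125 * (a * b) ^ 2)
        (fun a b => a * b * Q5 a b ^ 5) Q5 ?_ Q5_fib1 Q5_fib2 κ ε hκ hε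
      rintro W hΔ hc ⟨a, b, hab, e1, e2⟩
      refine ⟨a, b, e1, e2, ?_, ?_, ?_, hab, Q5_cop1 hab, Q5_cop2 hab⟩
      · rw [e2]; exact Dvd.dvd.mul_right (dvd_mul_right _ _) _
      · rw [e2]; exact Dvd.dvd.mul_right (dvd_mul_left _ _) _
      · rw [e2]; exact Dvd.dvd.mul_left (dvd_pow_self _ (by norm_num)) _

end Pool.Agent.Lib.MP_d8bd92_nt
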