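import Pool.Agent.Lib.MP_d8bd92_nt.Iso.Iso7
import Pool.Agent.Lib.MP_d8bd92_nt.Iso.Iso5

set_option autoImplicit false

/-! Galois stable subgroups of order seven. -/

namespace Pool.Agent.Lib.MP_d8bd92_nt.Iso

open WeierstrassCurve WeierstrassCurve.Affine Pool.Agent.Lib.Szpiro

/-- Abscissas of `P`, `2 P`, `3 P` for a point of order seven. -/
theorem seven_data {F : Type*} [Field F] [DecidableEq F] {W : Affine F} (x y : F) (h : W.Nonsingular x y)
    (hP : addOrderOf (Point.some x y h) = 7) :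
    ∃ (x2 y2 : F) (h2 : W.Nonsingular x2 y2) (x3 y3 : F) (h3 : W.Nonsingular x3 y3) (q r κ : F),
      Point.some x y h + Point.some x y h = Point.some x2 y2 h2 ∧
      Point.some x y h + Point.some x y h + Point.some x y h = Point.some x3 y3 h3 ∧
      q = (x - x2) * (x2 - x3) * (x3 - x) ∧ q ≠ 0 ∧ W.Δ = q ^ 2 * r ∧
      W.c₄ = κ * (r ^ 2 + 5 * r + 1) ∧ κ ^ 3 = q ^ 2 * (r ^ 2 + 13 * r + 49) := by
  set P : W.Point := Point.some x y h with hPdef
  have h7 : P + P + P + P + P + P + P = 0 := by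
    have := addOrderOf_nsmul_eq_zero P
    rw [hP] at this
    simpa [succ_nsmul] using this
  have hne : ∀ n : ℕ, 0 < n → n < 7 → n • P ≠ 0 := by
    intro n hn hn7 h0
    have := addOrderOf_le_of_nsmul_eq_zero hn h0
    omega
  have h2 : P + P ≠ 0 := by simpa [succ_nsmul] using hne 2 (by norm_num) (by norm_num)
  have h3 : P + P + P ≠ 0 := by simpa [succ_nsmul] using hne 3 (by norm_num) (by norm_num)
  have h4 : P + P + P + P ≠ 0 := by simpa [succ_nsmul] using hne 4 (by norm_num) (by norm_num)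
  rw [hPdef] at h7 h2 h3 h4
  rw [hPdef]
  obtain ⟨lam, A1, A2, U, D, ⟨h2', e2⟩, ⟨h3', e3⟩⟩ := exists_multiples h h2 h3
  obtain ⟨hc, hΔ⟩ := D.invariants h.1
  obtain ⟨hA2, hU, ha1, ha3, ha2, htan⟩ := D
  -- 3P and P have different abscissas
  have hmu : U - A1 ≠ 0 := by
    intro h0
    have hx : x + U * (U - A1) = x := by rw [h0]; ring
    rcases (Point.X_eq_iff (h₁ := h3') (h₂ := h)).mp hx with hh | hh
    · rw [← e3] at hh
      apply h2
      have : Point.some x y h + Point.some x y h + Point.some x y h - Point.some x y h = 0 := by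
        rw [hh, sub_self]
      simpa using this
    · rw [← e3] at hh
      apply h4
      rw [hh]; simp
  obtain ⟨k, hk⟩ : ∃ k, A2 = k * (U - A1) := ⟨_, (div_mul_cancel₀ _ hmu).symm⟩
  have hne3 : x + U * (U - A1) ≠ x := by
    intro h0
    have : U * (U - A1) = 0 := by linear_combination h0
    rcases mul_eq_zero.mp this with h | h
    · exact hU h
    · exact hmu h
  obtain ⟨h4', e4⟩ := add_chord (l := lam - U - k) h3' h hne3 (by rw [hk]; ring)
  have hX : (lam - U - k) ^ 2 + W.a₁ * (lam - U - k) - W.a₂ - (x + U * (U - A1)) - x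
      = x + U * (U - A1) := by
    have hneg : Point.some x y h + Point.some x y h + Point.some x y h + Point.some x y h =
        -(Point.some x y h + Point.some x y h + Point.some x y h) := by
      rw [eq_neg_iff_add_eq_zero, ← h7]; abel
    rw [e3, e4] at hneg
    exact (Point.X_eq_iff (h₁ := h4') (h₂ := h3')).mpr (Or.inr hneg)
  have hrel : k * (U + k) = U * (U - A1) := by
    have : W.a₁ = A1 - 2 * lam := by rw [ha1]; ring
    have h2a : W.a₂ = A2 + lam * W.a₁ - 3 * x + lam ^ 2 := by rw [ha2]; ring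
    rw [h2a, this, hk] at hX
    linear_combination hX
  obtain ⟨d, hd⟩ : ∃ d, d = -k / U := ⟨_, rfl⟩
  have hA1 : A1 = U * (1 - (d ^ 2 - d)) := by
    rw [hd]
    field_simp
    linear_combination hrel
  have hA2' : A2 = - U ^ 2 * (d ^ 3 - d ^ 2) := by
    rw [hk, hA1, hd]; field_simp; ring
  have hd0 : d ≠ 0 := by
    rintro rfl
    apply hA2
    rw [hA2']
    ring
  have hd1 : d - 1 ≠ 0 := by
    intro h0
    apply hA2
    have : d = 1 := by linear_combination h0
    rw [hA2', this]
    ring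
  refine ⟨_, _, h2', _, _, h3', -(U ^ 6 * d ^ 4 * (d - 1) ^ 4), (d ^ 3 - 8 * d ^ 2 + 5 * d + 1) / (d * (d - 1)),
    U ^ 4 * (d ^ 2 - d + 1) * d ^ 2 * (d - 1) ^ 2, e2, e3, ?_, ?_, ?_, ?_, ?_⟩
  · rw [hA2', hA1]
    ring
  · exact neg_ne_zero.2 (mul_ne_zero (mul_ne_zero (pow_ne_zero _ hU) (pow_ne_zero _ hd0)) (pow_ne_zero _ hd1))
  · rw [hΔ, hA2', hA1]
    field_simp
    ring
  · rw [hc, hA2', hA1]
    field_simp
    ring
  · field_simp
    ring

/-- The Galois action on the abscissas. -/
theorem seven_sub (K : Type*) [Field K] [DecidableEq K] [Algebra ℚ K] [IsGalois ℚ K]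
    (W : WeierstrassCurve ℤ) (P : (W.baseChange K).toAffine.Point) (hP : addOrderOf P = 7)
    (hσ : ∀ σ : K ≃ₐ[ℚ] K, ∃ k : ℕ,
      Affine.Point.map (W' := W) (σ : K →ₐ[ℚ] K) P = k • P) :
    ∃ q r κ : ℚ, q ≠ 0 ∧ (W.Δ : ℚ) = q ^ 2 * r ∧ (W.c₄ : ℚ) = κ * (r ^ 2 + 5 * r + 1) ∧
      κ ^ 3 = q ^ 2 * (r ^ 2 + 13 * r + 49) := by
  rcases P with _ | ⟨x, y, h⟩
  · have h0 : (Affine.Point.zero : (W.baseChange K).toAffine.Point) = 0 := rfl
    rw [h0, addOrderOf_zero] at hP
    omega
  · obtain ⟨x2, y2, h2, x3, y3, h3, q, r, κ, e2, e3, hq, hq0, hΔ, hc4, hκ⟩ := seven_data x y h hP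
    have h7 : (7 : ℕ) • (Point.some x y h : (W.baseChange K).toAffine.Point) = 0 := by
      rw [← hP]; exact addOrderOf_nsmul_eq_zero _
    set P : (W.baseChange K).toAffine.Point := Point.some x y h with hPdef
    have hP7 : P + P + P + P + P + P + P = 0 := by
      rw [← h7]; simp [succ_nsmul]
    have hmod : ∀ k : ℕ, k • P = (k % 7) • P := by
      intro k
      conv_lhs => rw [← Nat.div_add_mod k 7, add_nsmul, mul_nsmul, h7, nsmul_zero, zero_add]
    -- the abscissa of a multiple
    obtain ⟨f, hf⟩ : ∃ f : ℕ → K, f = fun j => if j = 1 ∨ j = 6 then x else if j = 2 ∨ j = 5 then x2 else x3 :=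
      ⟨_, rfl⟩
    have hX : ∀ (j : ℕ) (x' y' : K) (h' : (W.baseChange K).toAffine.Nonsingular x' y'),
        Point.some x' y' h' = j • P → x' = f (j % 7) := by
      intro j x' y' h' hj
      rw [hmod] at hj
      have hlt : j % 7 < 7 := Nat.mod_lt _ (by norm_num)
      generalize j % 7 = i at *
      interval_cases i
      · rw [zero_nsmul] at hj
        exact absurd hj (Affine.Point.some_ne_zero _)
      · rw [one_nsmul, hPdef] at hj
        rw [hf]
        simpa using (Affine.Point.some.inj hj).1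
      · rw [two_nsmul, e2] at hj
        rw [hf]
        simpa using (Affine.Point.some.inj hj).1
      · have h6 : (3 : ℕ) • P = P + P + P := by simp only [succ_nsmul, zero_nsmul, zero_add]
        rw [h6, e3] at hj
        rw [hf]
        simpa using (Affine.Point.some.inj hj).1
      · have h6 : (4 : ℕ) • P = - (P + P + P) := by
          rw [eq_neg_iff_add_eq_zero, ← hP7]; simp only [succ_nsmul, zero_nsmul, zero_add]; abel
        rw [h6, e3, Affine.Point.neg_some] at hj
        rw [hf]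
        simpa using (Affine.Point.some.inj hj).1
      · have h6 : (5 : ℕ) • P = - (P + P) := by
          rw [eq_neg_iff_add_eq_zero, ← hP7]; simp only [succ_nsmul, zero_nsmul, zero_add]; abel
        rw [h6, e2, Affine.Point.neg_some] at hj
        rw [hf]
        simpa using (Affine.Point.some.inj hj).1
      · have h6 : (6 : ℕ) • P = - P := by
          rw [eq_neg_iff_add_eq_zero, ← hP7]; simp only [succ_nsmul, zero_nsmul, zero_add]
        rw [h6, hPdef, Affine.Point.neg_some] at hj
        rw [hf]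
        simpa using (Affine.Point.some.inj hj).1
    have hx : ∀ σ : K ≃ₐ[ℚ] K, σ q = q := by
      intro σ
      obtain ⟨k, hk⟩ := hσ σ
      have hk2 : Affine.Point.map (W' := W) (σ : K →ₐ[ℚ] K) (Point.some x2 y2 h2) = (k * 2) • P := by
        rw [← e2, map_add, hk, mul_nsmul, two_nsmul]
      have hk3 : Affine.Point.map (W' := W) (σ : K →ₐ[ℚ] K) (Point.some x3 y3 h3) = (k * 3) • P := by
        rw [← e3, map_add, map_add, hk, mul_nsmul, succ_nsmul, two_nsmul]
      have hk0 : ¬ k % 7 = 0 := by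
        intro h0
        rw [hmod, h0, zero_nsmul] at hk
        rw [hPdef, Affine.Point.map_some] at hk
        exact absurd hk (Affine.Point.some_ne_zero _)
      rw [hPdef, Affine.Point.map_some] at hk
      rw [Affine.Point.map_some] at hk2 hk3
      have s1 := hX k _ _ _ hk
      have s2 := hX (k * 2) _ _ _ hk2
      have s3 := hX (k * 3) _ _ _ hk3
      have t2 : k * 2 % 7 = (k % 7) * 2 % 7 := by rw [Nat.mod_mul_mod]
      have t3 : k * 3 % 7 = (k % 7) * 3 % 7 := by rw [Nat.mod_mul_mod]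
      rw [t2] at s2
      rw [t3] at s3
      have hlt : k % 7 < 7 := Nat.mod_lt _ (by norm_num)
      generalize k % 7 = i at *
      have s1' : σ x = f i := s1
      have s2' : σ x2 = f (i * 2 % 7) := s2
      have s3' : σ x3 = f (i * 3 % 7) := s3
      rw [hq, map_mul, map_mul, map_sub, map_sub, map_sub, s1', s2', s3', hf]
      interval_cases i
      · exact absurd rfl hk0
      · simp
      · simp only [Nat.reduceMul, Nat.reduceMod]
        norm_num
        ring
      · simp only [Nat.reduceMul, Nat.reduceMod]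
        norm_num
        ring
      · simp only [Nat.reduceMul, Nat.reduceMod]
        norm_num
        ring
      · simp only [Nat.reduceMul, Nat.reduceMod]
        norm_num
        ring
      · simp
    obtain ⟨q', hq'⟩ := IntermediateField.mem_bot.1 ((InfiniteGalois.mem_bot_iff_fixed (k := ℚ) q).2 hx)
    have e4 : (W.baseChange K).c₄ = algebraMap ℚ K (W.c₄ : ℚ) :=
      (W.map_c₄ (algebraMap ℤ K)).trans (IsScalarTower.algebraMap_apply ℤ ℚ K W.c₄)
    have eD : (W.baseChange K).Δ = algebraMap ℚ K (W.Δ : ℚ) :=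
      (W.map_Δ (algebraMap ℤ K)).trans (IsScalarTower.algebraMap_apply ℤ ℚ K W.Δ)
    have hinj := (algebraMap ℚ K).injective
    have hq'0 : q' ≠ 0 := by
      rintro rfl
      rw [map_zero] at hq'
      exact hq0 hq'.symm
    have hr : r = algebraMap ℚ K ((W.Δ : ℚ) / q' ^ 2) := by
      rw [map_div₀, map_pow, hq', ← eD]
      have h8 : (W.baseChange K).Δ = q ^ 2 * r := hΔ
      rw [h8]
      field_simp
    obtain ⟨r', hr'⟩ : ∃ r' : ℚ, r' = (W.Δ : ℚ) / q' ^ 2 := ⟨_, rfl⟩
    rw [← hr'] at hr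
    have hB : r' ^ 2 + 5 * r' + 1 ≠ 0 := by
      intro h0
      have h8 : (2 * r' + 5) ^ 2 = 21 := by linear_combination 4 * h0
      have h9 : IsSquare (21 : ℚ) := ⟨2 * r' + 5, by rw [← h8]; ring⟩
      rw [Rat.isSquare_iff] at h9
      obtain ⟨⟨t, ht⟩, _⟩ := h9
      have h10 : (21 : ℚ).num = 21 := rfl
      rw [h10] at ht
      have h12 : t ≤ 4 := by nlinarith
      have h13 : -4 ≤ t := by nlinarith
      interval_cases t <;> omega
    refine ⟨q', r', (W.c₄ : ℚ) / (r' ^ 2 + 5 * r' + 1), hq'0, ?_, ?_, ?_⟩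
    · rw [hr']; field_simp
    · exact (div_mul_cancel₀ _ hB).symm
    · have hκ' : κ = algebraMap ℚ K ((W.c₄ : ℚ) / (r' ^ 2 + 5 * r' + 1)) := by
        have hB' : algebraMap ℚ K (r' ^ 2 + 5 * r' + 1) ≠ 0 := by
          intro h0
          exact hB (hinj (by rw [h0, map_zero]))
        rw [map_div₀, ← e4]
        have h8 : (W.baseChange K).c₄ = κ * (r ^ 2 + 5 * r + 1) := hc4
        rw [h8, hr]
        have h9 : (algebraMap ℚ K r') ^ 2 + 5 * algebraMap ℚ K r' + 1 = algebraMap ℚ K (r' ^ 2 + 5 * r' + 1) := by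
          simp only [map_add, map_mul, map_pow, map_ofNat, map_one]
        rw [h9, mul_div_cancel_right₀ _ hB']
      apply hinj
      rw [map_pow, ← hκ', hκ, hr, ← hq']
      simp only [map_add, map_mul, map_pow, map_ofNat]

end Pool.Agent.Lib.MP_d8bd92_nt.Iso
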