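import Pool.Agent.Lib.MP_d8bd92_nt.Iso.Cnt
import Pool.Agent.Lib.MP_d8bd92_nt.Iso.Sub7

set_option autoImplicit false

/-!
Semistable curves with a rational isogeny of degree seven, counted by conductor.
-/

namespace Pool.Agent.Lib.MP_d8bd92_nt

open Finset Pool.Agent.Lib.Szpiro WeierstrassCurve WeierstrassCurve.Affine

namespace Th

theorem sub_fib1 (s : Bool × Bool) (i j : ℕ) (F : Finset (ℕ × ℕ)) (hF : ∀ x ∈ F, x.1 = i ∧
      (sg s.1 * (x.1 : ℤ) - sg s.2 * (x.2 : ℤ)).natAbs = j) : F.card ≤ 4 := by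
  apply card_le_four F (fun x => sg s.1 * (x.1 : ℤ) - sg s.2 * (x.2 : ℤ)) j
    (fun x hx => (hF x hx).2)
  intro x hx y hy z hz hxy hxz
  left
  have a1 := (hF x hx).1
  have a2 := (hF y hy).1
  rw [a1, a2] at hxy
  have h : sg s.2 * (x.2 : ℤ) = sg s.2 * (y.2 : ℤ) := by linarith
  have h' := mul_left_cancel₀ (sg_ne _) h
  exact Prod.ext (a1.trans a2.symm) (by exact_mod_cast h')

theorem sub_fib2 (s : Bool × Bool) (i j : ℕ) (F : Finset (ℕ × ℕ)) (hF : ∀ x ∈ F, x.2 = i ∧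
      (sg s.1 * (x.1 : ℤ) - sg s.2 * (x.2 : ℤ)).natAbs = j) : F.card ≤ 4 := by
  apply card_le_four F (fun x => sg s.1 * (x.1 : ℤ) - sg s.2 * (x.2 : ℤ)) j
    (fun x hx => (hF x hx).2)
  intro x hx y hy z hz hxy hxz
  left
  have a1 := (hF x hx).1
  have a2 := (hF y hy).1
  rw [a1, a2] at hxy
  have h : sg s.1 * (x.1 : ℤ) = sg s.1 * (y.1 : ℤ) := by linarith
  have h' := mul_left_cancel₀ (sg_ne _) h
  exact Prod.ext (by exact_mod_cast h') (a1.trans a2.symm)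

theorem sub_cop1 {a b : ℤ} (hab : IsCoprime a b) : IsCoprime a (a - b) := by
  have h : a - b = -b + a * 1 := by ring
  rw [h]
  exact IsCoprime.add_mul_left_right hab.neg_right _

theorem sub_cop2 {a b : ℤ} (hab : IsCoprime a b) : IsCoprime b (a - b) := by
  have h : a - b = a + b * (-1) := by ring
  rw [h]
  exact IsCoprime.add_mul_left_right hab.symm _

end Th

open Th Iso in
/-- Semistable curves with a rational isogeny of degree seven. -/
theorem subSet_seven (κ ε : ℝ) (hκ : 0 < κ) (hε : 0 < ε) : ∃ C : ℝ, 0 < C ∧ ∀ Y : ℝ, 1 ≤ Y →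
    (predSet (RatSub 7) Y κ).Finite ∧ ((predSet (RatSub 7) Y κ).ncard : ℝ) ≤ C * Y ^ (2 / 3 + ε) := by
  apply predSet_mono (RatSub 7)
    (fun W => (∃ a b : ℤ, IsCoprime a b ∧ W.c₄ = C47 a b ∧ W.Δ = (a * b * (a - b)) ^ 7 * cub7 a b) ∨
      (∃ a b : ℤ, IsCoprime a b ∧ W.c₄ = (a ^ 2 - a * b + b ^ 2) * (2401 * (a * b * (a - b)) ^ 2 +
          245 * (a * b * (a - b)) * cub7 a b + cub7 a b ^ 2) ∧ W.Δ = a * b * (a - b) * cub7 a b ^ 7))
  · intro W hΔ hc hW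
    obtain ⟨P, hP, hσ⟩ := hW
    have := isGalois_Qbar
    classical
    obtain ⟨q, r, k, hq, h1, h2, h3⟩ := seven_sub (AlgebraicClosure ℚ) W P hP hσ
    obtain ⟨a, b, hab, h4 | h4⟩ := iso7 W hΔ hc q r k hq h1 h2 h3
    · exact Or.inl ⟨a, b, hab, h4⟩
    · exact Or.inr ⟨a, b, hab, h4⟩
  · apply predSet_or
    · apply three_factors_pred _ C47 (fun a b => (a * b * (a - b)) ^ 7 * cub7 a b) (fun a b => a - b) ?_
        sub_fib1 sub_fib2 κ ε hκ hε
      rintro W hΔ hc ⟨a, b, hab, e1, e2⟩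
      refine ⟨a, b, e1, e2, ?_, ?_, ?_, hab, sub_cop1 hab, sub_cop2 hab⟩
      · rw [e2]
        exact Dvd.dvd.mul_right (dvd_pow (Dvd.dvd.mul_right (dvd_mul_right _ _) _) (by norm_num)) _
      · rw [e2]
        exact Dvd.dvd.mul_right (dvd_pow (Dvd.dvd.mul_right (dvd_mul_left _ _) _) (by norm_num)) _
      · rw [e2]
        exact Dvd.dvd.mul_right (dvd_pow (dvd_mul_left _ _) (by norm_num)) _
    · apply three_factors_pred _ (fun a b => (a ^ 2 - a * b + b ^ 2) * (2401 * (a * b * (a - b)) ^ 2 +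
          245 * (a * b * (a - b)) * cub7 a b + cub7 a b ^ 2)) (fun a b => a * b * (a - b) * cub7 a b ^ 7)
        (fun a b => a - b) ?_ sub_fib1 sub_fib2 κ ε hκ hε
      rintro W hΔ hc ⟨a, b, hab, e1, e2⟩
      refine ⟨a, b, e1, e2, ?_, ?_, ?_, hab, sub_cop1 hab, sub_cop2 hab⟩
      · rw [e2]
        exact Dvd.dvd.mul_right (Dvd.dvd.mul_right (dvd_mul_right _ _) _) _
      · rw [e2]
        exact Dvd.dvd.mul_right (Dvd.dvd.mul_right (dvd_mul_left _ _) _) _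
      · rw [e2]
        exact Dvd.dvd.mul_right (dvd_mul_left _ _) _

end Pool.Agent.Lib.MP_d8bd92_nt
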