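import Mathlib

set_option autoImplicit false

/-! The Eisenstein integers: cubes. -/

namespace Pool.Agent.Lib.MP_d8bd92_nt.Iso

/-- the Eisenstein integers `ℤ[ω]`, `ω² = -1 - ω` -/
abbrev Eis := QuadraticAlgebra ℤ (-1) (-1)

namespace Eis

open QuadraticAlgebra

/-- the norm form -/
def nf (z : Eis) : ℤ := z.re ^ 2 - z.re * z.im + z.im ^ 2

theorem nf_mul (z w : Eis) : nf (z * w) = nf z * nf w := by
  simp only [nf, re_mul, im_mul]
  ring

theorem nf_nonneg (z : Eis) : 0 ≤ nf z := by
  unfold nf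
  nlinarith [sq_nonneg (z.re - z.im), sq_nonneg z.re, sq_nonneg z.im]

theorem nf_pos {z : Eis} (hz : z ≠ 0) : 0 < nf z := by
  rcases (nf_nonneg z).lt_or_eq with h | h
  · exact h
  · exfalso
    apply hz
    have h1 : 3 * z.re ^ 2 + (z.re - 2 * z.im) ^ 2 = 0 := by
      unfold nf at h
      linear_combination -4 * h
    have h2 : z.re = 0 := by nlinarith [sq_nonneg (z.re - 2 * z.im), sq_nonneg z.re]
    have h3 : z.im = 0 := by
      rw [h2] at h1
      nlinarith [sq_nonneg z.im]
    exact QuadraticAlgebra.ext h2 h3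

/-- rounding -/
def rd2 (A N : ℤ) : ℤ := (2 * A + N) / (2 * N)

theorem rd2_spec (A N : ℤ) (hN : 0 < N) : |2 * (A - rd2 A N * N)| ≤ N := by
  unfold rd2
  have h1 := Int.emod_add_mul_ediv (2 * A + N) (2 * N)
  have h2 := Int.emod_nonneg (2 * A + N) (b := 2 * N) (by omega)
  have h3 := Int.emod_lt_of_pos (2 * A + N) (b := 2 * N) (by omega)
  rw [abs_le]
  constructor <;> nlinarith

/-- quotient -/
def quo (x y : Eis) : Eis := ⟨rd2 (x * star y).re (nf y), rd2 (x * star y).im (nf y)⟩

theorem star_mul_self' (y : Eis) : y * star y = ⟨nf y, 0⟩ := by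
  ext
  · simp only [re_mul, re_star, im_star, nf]; ring
  · simp only [im_mul, re_star, im_star]; ring

theorem nf_star (y : Eis) : nf (star y) = nf y := by
  simp only [re_star, im_star, nf]; ring

theorem quo_lt (x y : Eis) (hy : y ≠ 0) : nf (x - y * quo x y) < nf y := by
  have hN := nf_pos hy
  have h1 : (x - y * quo x y) * star y = x * star y - ⟨nf y, 0⟩ * quo x y := by
    rw [← star_mul_self']; ring
  have h2 : nf (x - y * quo x y) * nf y = nf (x * star y - ⟨nf y, 0⟩ * quo x y) := by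
    rw [← h1, nf_mul, nf_star]
  have hr : (x * star y - ⟨nf y, 0⟩ * quo x y).re = (x * star y).re - rd2 (x * star y).re (nf y) * nf y := by
    simp only [re_sub, re_mul, quo]; ring
  have hi : (x * star y - ⟨nf y, 0⟩ * quo x y).im = (x * star y).im - rd2 (x * star y).im (nf y) * nf y := by
    simp only [im_sub, im_mul, quo]; ring
  have h3 : nf (x * star y - ⟨nf y, 0⟩ * quo x y) =
      (x * star y - ⟨nf y, 0⟩ * quo x y).re ^ 2 - (x * star y - ⟨nf y, 0⟩ * quo x y).re *
        (x * star y - ⟨nf y, 0⟩ * quo x y).im + (x * star y - ⟨nf y, 0⟩ * quo x y).im ^ 2 := rfl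
  rw [h3, hr, hi] at h2
  have a1 := rd2_spec (x * star y).re (nf y) hN
  have a2 := rd2_spec (x * star y).im (nf y) hN
  generalize (x * star y).re - rd2 (x * star y).re (nf y) * nf y = A at *
  generalize (x * star y).im - rd2 (x * star y).im (nf y) * nf y = B at *
  rw [abs_le] at a1 a2
  have h4 : 4 * (nf (x - y * quo x y) * nf y) ≤ 3 * nf y ^ 2 := by
    rw [h2]
    nlinarith [mul_nonneg (sub_nonneg.2 a1.2) (sub_nonneg.2 a2.2), mul_nonneg (sub_nonneg.2 a1.1) (sub_nonneg.2 a2.1),
      mul_nonneg (sub_nonneg.2 a1.2) (sub_nonneg.2 a2.1), mul_nonneg (sub_nonneg.2 a1.1) (sub_nonneg.2 a2.2),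
      mul_nonneg (sub_nonneg.2 a1.1) (sub_nonneg.2 a1.2), mul_nonneg (sub_nonneg.2 a2.1) (sub_nonneg.2 a2.2)]
  nlinarith

noncomputable instance : EuclideanDomain Eis where
  quotient := quo
  quotient_zero := by
    intro x
    ext
    · simp [quo, rd2, nf]
    · simp [quo, rd2, nf]
  remainder x y := x - y * quo x y
  quotient_mul_add_remainder_eq := by
    intro x y
    ring
  r x y := nf x < nf y
  r_wellFounded := by
    have h : WellFounded (fun x y : Eis => (nf x).toNat < (nf y).toNat) :=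
      InvImage.wf (fun z : Eis => (nf z).toNat) wellFounded_lt
    have e : (fun x y : Eis => nf x < nf y) = (fun x y : Eis => (nf x).toNat < (nf y).toNat) := by
      funext x y
      have h1 := nf_nonneg x
      have h2 := nf_nonneg y
      apply propext
      omega
    rw [e]
    exact h
  remainder_lt := by
    intro x y hy
    exact quo_lt x y hy
  mul_left_not_lt := by
    intro x y hy
    rw [nf_mul, not_lt]
    have h1 := nf_pos hy
    have h2 := nf_nonneg x
    nlinarith

/-- units -/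
theorem of_nf_one {z : Eis} (h : nf z = 1) : z = ⟨1, 0⟩ ∨ z = ⟨-1, 0⟩ ∨ z = ⟨0, 1⟩ ∨ z = ⟨0, -1⟩ ∨
    z = ⟨1, 1⟩ ∨ z = ⟨-1, -1⟩ := by
  obtain ⟨a, b⟩ := z
  unfold nf at h
  simp only at h
  have h1 : a ≤ 1 := by nlinarith [sq_nonneg (a - 2 * b)]
  have h2 : -1 ≤ a := by nlinarith [sq_nonneg (a - 2 * b)]
  have h3 : b ≤ 1 := by nlinarith [sq_nonneg (b - 2 * a)]
  have h4 : -1 ≤ b := by nlinarith [sq_nonneg (b - 2 * a)]
  interval_cases a <;> interval_cases b <;> simp_all

theorem nf_of_isUnit {z : Eis} (h : IsUnit z) : nf z = 1 := by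
  obtain ⟨w, hw⟩ := h.exists_right_inv
  have h1 : nf z * nf w = 1 := by
    rw [← nf_mul, hw]
    rfl
  have h2 := nf_nonneg z
  exact Int.eq_one_of_mul_eq_one_right h2 h1

/-- a primitive element with norm a cube, congruent to an integer modulo 3, is a cube -/
theorem cube_of_norm (x y m : ℤ) (hxy : IsCoprime x y) (h3 : (3 : ℤ) ∣ y) (h : x ^ 2 - x * y + y ^ 2 = m ^ 3) :
    ∃ a b : ℤ, x = a ^ 3 - 3 * a * b ^ 2 + b ^ 3 ∧ y = 3 * (a * b * (a - b)) := by
  have hx3 : ¬ (3 : ℤ) ∣ x := fun h1 => Int.prime_three.not_isUnit (hxy.isUnit_of_dvd' h1 h3)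
  have hcop : IsCoprime (3 * y) (x ^ 2 - x * y + y ^ 2) := by
    apply IsCoprime.mul_left
    · rw [Prime.coprime_iff_not_dvd Int.prime_three]
      intro h1
      apply hx3
      apply Int.prime_three.dvd_of_dvd_pow (n := 2)
      have : x ^ 2 = (x ^ 2 - x * y + y ^ 2) + y * (x - y) := by ring
      rw [this]
      exact dvd_add h1 (Dvd.dvd.mul_right h3 _)
    · have : x ^ 2 - x * y + y ^ 2 = x ^ 2 + y * (y - x) := by ring
      rw [this]
      exact IsCoprime.add_mul_left_right hxy.symm.pow_right _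
  obtain ⟨r, s, hrs⟩ := hcop
  set z : Eis := ⟨x, y⟩ with hz
  have hzz : z * star z = ⟨m, 0⟩ ^ 3 := by
    rw [star_mul_self', pow_succ, pow_two]
    ext
    · simp only [re_mul, nf, hz]
      linear_combination h
    · simp only [im_mul]
      ring
  have hcz : IsCoprime z (star z) := by
    refine ⟨-(⟨r, 0⟩ * ⟨1, 2⟩) + ⟨s, 0⟩ * star z, ⟨r, 0⟩ * ⟨1, 2⟩, ?_⟩
    ext
    · simp only [re_add, re_mul, re_neg, im_neg, im_mul, im_add, re_star, im_star, hz, QuadraticAlgebra.re_one]
      linear_combination hrs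
    · simp only [re_add, re_mul, re_neg, im_neg, im_mul, im_add, re_star, im_star, hz, QuadraticAlgebra.im_one]
      ring
  obtain ⟨c, ⟨v, hv⟩⟩ := exists_associated_pow_of_mul_eq_pow' hcz hzz
  have hvu := of_nf_one (nf_of_isUnit v.isUnit)
  obtain ⟨a, b⟩ := c
  have hc3 : (⟨a, b⟩ : Eis) ^ 3 = ⟨a ^ 3 - 3 * a * b ^ 2 + b ^ 3, 3 * (a * b * (a - b))⟩ := by
    rw [pow_succ, pow_two]
    ext
    · simp only [re_mul, im_mul]; ring
    · simp only [re_mul, im_mul]; ring
  rw [hc3] at hv
  have hre := congrArg QuadraticAlgebra.re hv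
  have him := congrArg QuadraticAlgebra.im hv
  simp only [re_mul, im_mul, hz] at hre him
  rcases hvu with h1 | h1 | h1 | h1 | h1 | h1
  · rw [h1] at hre him
    simp only at hre him
    exact ⟨a, b, by linear_combination -hre, by linear_combination -him⟩
  · rw [h1] at hre him
    simp only at hre him
    exact ⟨-a, -b, by linear_combination -hre, by linear_combination -him⟩
  · rw [h1] at hre him
    simp only at hre him
    exact absurd ⟨-(a * b * (a - b)), by linear_combination -hre⟩ hx3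
  · rw [h1] at hre him
    simp only at hre him
    exact absurd ⟨a * b * (a - b), by linear_combination -hre⟩ hx3
  · rw [h1] at hre him
    simp only at hre him
    obtain ⟨t, ht⟩ := h3
    exact absurd ⟨t - a * b * (a - b), by linear_combination -hre + him + ht⟩ hx3
  · rw [h1] at hre him
    simp only at hre him
    obtain ⟨t, ht⟩ := h3
    exact absurd ⟨t + a * b * (a - b), by linear_combination -hre + him + ht⟩ hx3

end Eis

end Pool.Agent.Lib.MP_d8bd92_nt.Iso
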