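import Mathlib

set_option autoImplicit false

/-! Semistable curves with a rational subgroup of order three. -/

namespace Pool.Agent.Lib.MP_d8bd92_nt.Iso

/-- Two integers with a common factor only if `c₄` and `Δ` have one. -/
theorem iso3_cop_of {u v c D : ℤ} (hc : IsCoprime c D)
    (h : ∀ p : ℤ, Prime p → p ∣ u → p ∣ v → p ∣ c ∧ p ∣ D) : IsCoprime u v := by
  rw [Int.isCoprime_iff_gcd_eq_one]
  by_contra hg
  obtain ⟨q, hq, hqd⟩ := Nat.exists_prime_and_dvd hg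
  have hq' : Prime (q : ℤ) := Nat.prime_iff_prime_int.1 hq
  have hu : (q : ℤ) ∣ u := (Int.natCast_dvd_natCast.2 hqd).trans (Int.gcd_dvd_left ..)
  have hv : (q : ℤ) ∣ v := (Int.natCast_dvd_natCast.2 hqd).trans (Int.gcd_dvd_right ..)
  obtain ⟨h1, h2⟩ := h q hq' hu hv
  have := hc.isUnit_of_dvd' h1 h2
  exact hq'.not_isUnit this

theorem iso3_sq4 (x : ℤ) : x ^ 2 % 4 = 0 ∨ x ^ 2 % 4 = 1 := by
  rcases Int.even_or_odd x with ⟨k, hk⟩ | ⟨k, hk⟩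
  · left
    have : x ^ 2 = 4 * k ^ 2 := by rw [hk]; ring
    omega
  · right
    have : x ^ 2 = 4 * (k ^ 2 + k) + 1 := by rw [hk]; ring
    omega

theorem iso3_signs {u v w : ℤ} (hcop : IsCoprime u v) (hrel : u * v = w ^ 2)
    (hu : u % 4 = 0 ∨ u % 4 = 1) (hv : v % 4 = 0 ∨ v % 4 = 1) :
    ∃ a b : ℤ, u = a ^ 2 ∧ v = b ^ 2 ∧ w = a * b := by
  obtain ⟨a, ha⟩ := Int.sq_of_isCoprime hcop hrel
  obtain ⟨b, hb⟩ := Int.sq_of_isCoprime hcop.symm (by rw [mul_comm]; exact hrel)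
  have key : ∀ {u v w : ℤ}, IsCoprime u v → u * v = w ^ 2 → (u % 4 = 0 ∨ u % 4 = 1) →
      (v % 4 = 0 ∨ v % 4 = 1) → 0 ≤ u := by
    intro u v w hcop hrel hu hv
    by_contra hneg
    have hneg : u < 0 := not_le.1 hneg
    have huv : 0 ≤ u * v := by rw [hrel]; positivity
    have hv0 : v ≤ 0 := by
      by_contra h
      have := mul_neg_of_neg_of_pos hneg (not_le.1 h)
      omega
    obtain ⟨a, ha⟩ := Int.sq_of_isCoprime hcop hrel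
    obtain ⟨b, hb⟩ := Int.sq_of_isCoprime hcop.symm (by rw [mul_comm]; exact hrel)
    have ha' : u = -a ^ 2 := by
      rcases ha with h | h
      · have := sq_nonneg a
        omega
      · exact h
    have hb' : v = -b ^ 2 := by
      rcases hb with h | h
      · have := sq_nonneg b
        have h0 : v = 0 := by omega
        rw [h0] at h
        rw [h0, ← h]; simp
      · exact h
    have h1 := iso3_sq4 a
    have h2 := iso3_sq4 b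
    have h3 : (2 : ℤ) ∣ u := by omega
    have h4 : (2 : ℤ) ∣ v := by omega
    exact Int.prime_two.not_isUnit (hcop.isUnit_of_dvd' h3 h4)
  have hu0 := key hcop hrel hu hv
  have hv0 := key hcop.symm (by rw [mul_comm]; exact hrel) hv hu
  have key : u = a ^ 2 ∧ v = b ^ 2 := by
    constructor
    · rcases ha with h | h
      · exact h
      · have := sq_nonneg a
        have h0 : a ^ 2 = 0 := by omega
        rw [h, h0]; simp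
    · rcases hb with h | h
      · exact h
      · have := sq_nonneg b
        have h0 : b ^ 2 = 0 := by omega
        rw [h, h0]; simp
  obtain ⟨ha, hb⟩ := key
  have h1 : w ^ 2 = (a * b) ^ 2 := by rw [← hrel, ha, hb]; ring
  rcases sq_eq_sq_iff_eq_or_eq_neg.1 h1 with h2 | h2
  · exact ⟨a, b, ha, hb, h2⟩
  · exact ⟨-a, b, by rw [ha]; ring, hb, by rw [h2]; ring⟩

/-- the case of an integral abscissa -/
theorem iso3_caseA {b2 b4 b6 b8 c4 c6 D a1 a2 a3 a4 a6 x : ℤ} (hc : IsCoprime c4 D)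
    (hX : (3 * x) ^ 4 + b2 * (3 * x) ^ 3 + 9 * b4 * (3 * x) ^ 2 + 27 * b6 * (3 * x) + 27 * b8 = 0)
    (hb8 : 4 * b8 = b2 * b6 - b4 ^ 2) (e4 : c4 = b2 ^ 2 - 24 * b4)
    (e6 : c6 = -b2 ^ 3 + 36 * b2 * b4 - 216 * b6)
    (eD : D = -b2 ^ 2 * b8 - 8 * b4 ^ 3 - 27 * b6 ^ 2 + 9 * b2 * b4 * b6)
    (f2 : b2 = a1 ^ 2 + 4 * a2) (f4 : b4 = 2 * a4 + a1 * a3) (f6 : b6 = a3 ^ 2 + 4 * a6) :
    ∃ a b : ℤ,
      (c4 = a * (a ^ 3 - 24 * b) ∧ c6 = -a ^ 6 + 36 * a ^ 3 * b - 216 * b ^ 2 ∧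
        D = b ^ 3 * (a ^ 3 - 27 * b)) ∨
      (c4 = a * (a ^ 3 + 216 * b) ∧ c6 = -a ^ 6 + 540 * a ^ 3 * b + 5832 * b ^ 2 ∧
        D = b * (a ^ 3 - 27 * b) ^ 3) := by
  have hx : 3 * x ^ 4 + b2 * x ^ 3 + 3 * b4 * x ^ 2 + 3 * b6 * x + b8 = 0 := by
    have : 27 * (3 * x ^ 4 + b2 * x ^ 3 + 3 * b4 * x ^ 2 + 3 * b6 * x + b8) = 0 := by
      linear_combination hX
    omega
  obtain ⟨B2, hB2⟩ : ∃ B2, B2 = b2 + 12 * x := ⟨_, rfl⟩
  obtain ⟨B4, hB4⟩ : ∃ B4, B4 = b4 + b2 * x + 6 * x ^ 2 := ⟨_, rfl⟩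
  obtain ⟨B6, hB6⟩ : ∃ B6, B6 = b6 + 2 * b4 * x + b2 * x ^ 2 + 4 * x ^ 3 := ⟨_, rfl⟩
  have hrel : B2 * B6 = B4 ^ 2 := by
    rw [hB2, hB4, hB6]
    linear_combination 4 * hx - hb8
  have g4 : c4 = B2 ^ 2 - 24 * B4 := by
    rw [e4, hB2, hB4]; ring
  have g6 : c6 = -B2 ^ 3 + 36 * B2 * B4 - 216 * B6 := by
    rw [e6, hB2, hB4, hB6]; ring
  have gD : D = -8 * B4 ^ 3 - 27 * B6 ^ 2 + 9 * B2 * B4 * B6 := by
    have : D = -B2 ^ 2 * (3 * x ^ 4 + b2 * x ^ 3 + 3 * b4 * x ^ 2 + 3 * b6 * x + b8)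
        - 8 * B4 ^ 3 - 27 * B6 ^ 2 + 9 * B2 * B4 * B6 := by
      rw [eD, hB2, hB4, hB6]
      linear_combination (36 * x ^ 2 + 6 * b2 * x) * hb8
    rw [this, hx]; ring
  have hcop : IsCoprime B2 B6 := by
    apply iso3_cop_of hc
    intro p hp h1 h2
    have h4 : p ∣ B4 := by
      apply hp.dvd_of_dvd_pow (n := 2)
      rw [← hrel]
      exact h1.mul_right _
    refine ⟨?_, ?_⟩
    · rw [g4]
      exact (h1.pow (by norm_num)).sub (h4.mul_left _)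
    · rw [gD]
      refine ((?_ : p ∣ -8 * B4 ^ 3).sub ?_).add ?_
      · exact (h4.pow (by norm_num)).mul_left _
      · exact (h2.pow (by norm_num)).mul_left _
      · exact h2.mul_left _
  -- the iso3_signs
  have hB2m : B2 % 4 = 0 ∨ B2 % 4 = 1 := by
    rw [hB2, f2]
    have : a1 ^ 2 % 4 = 0 ∨ a1 ^ 2 % 4 = 1 := iso3_sq4 a1
    omega
  have hB6m : B6 % 4 = 0 ∨ B6 % 4 = 1 := by
    have h1 : B6 = (a3 + x * a1) ^ 2 + 4 * (a6 + x * a4 + x ^ 2 * a2 + x ^ 3) := by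
      rw [hB6, f6, f4, f2]; ring
    have : (a3 + x * a1) ^ 2 % 4 = 0 ∨ (a3 + x * a1) ^ 2 % 4 = 1 := iso3_sq4 _
    omega
  obtain ⟨a, b, ha, hb, hab⟩ := iso3_signs hcop hrel hB2m hB6m
  refine ⟨a, b, Or.inl ⟨?_, ?_, ?_⟩⟩
  · rw [g4, ha, hab]; ring
  · rw [g6, ha, hab, hb]; ring
  · rw [gD, ha, hab, hb]; ring

/-- the case of an abscissa which is not integral -/
theorem iso3_caseB {b2 b4 b6 b8 c4 c6 D a1 a2 a3 a4 a6 X : ℤ} (hc : IsCoprime c4 D)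
    (hX : X ^ 4 + b2 * X ^ 3 + 9 * b4 * X ^ 2 + 27 * b6 * X + 27 * b8 = 0) (h3 : ¬ (3 : ℤ) ∣ X)
    (hb8 : 4 * b8 = b2 * b6 - b4 ^ 2) (e4 : c4 = b2 ^ 2 - 24 * b4)
    (e6 : c6 = -b2 ^ 3 + 36 * b2 * b4 - 216 * b6)
    (eD : D = -b2 ^ 2 * b8 - 8 * b4 ^ 3 - 27 * b6 ^ 2 + 9 * b2 * b4 * b6)
    (f2 : b2 = a1 ^ 2 + 4 * a2) (f4 : b4 = 2 * a4 + a1 * a3) (f6 : b6 = a3 ^ 2 + 4 * a6) :
    ∃ a b : ℤ,
      (c4 = a * (a ^ 3 - 24 * b) ∧ c6 = -a ^ 6 + 36 * a ^ 3 * b - 216 * b ^ 2 ∧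
        D = b ^ 3 * (a ^ 3 - 27 * b)) ∨
      (c4 = a * (a ^ 3 + 216 * b) ∧ c6 = -a ^ 6 + 540 * a ^ 3 * b + 5832 * b ^ 2 ∧
        D = b * (a ^ 3 - 27 * b) ^ 3) := by
  obtain ⟨B2, hB2⟩ : ∃ B2, B2 = b2 + 4 * X := ⟨_, rfl⟩
  obtain ⟨B4, hB4⟩ : ∃ B4, B4 = 3 * b4 + b2 * X + 2 * X ^ 2 := ⟨_, rfl⟩
  obtain ⟨B6, hB6⟩ : ∃ B6, B6 = 27 * b6 + 18 * b4 * X + 3 * b2 * X ^ 2 + 4 * X ^ 3 := ⟨_, rfl⟩
  have hrel : B2 * B6 = 3 * B4 ^ 2 := by
    rw [hB2, hB4, hB6]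
    linear_combination 4 * hX - 27 * hb8
  have g4 : c4 = B2 ^ 2 - 8 * B4 := by
    rw [e4, hB2, hB4]; ring
  have g6 : c6 = -B2 ^ 3 + 12 * B2 * B4 - 8 * B6 := by
    rw [e6, hB2, hB4, hB6]; ring
  have gD : 27 * D = -8 * B4 ^ 3 - B6 ^ 2 + 3 * B2 * B4 * B6 := by
    have : 27 * D = -B2 ^ 2 * (X ^ 4 + b2 * X ^ 3 + 9 * b4 * X ^ 2 + 27 * b6 * X + 27 * b8)
        - 8 * B4 ^ 3 - B6 ^ 2 + 3 * B2 * B4 * B6 := by
      rw [eD, hB2, hB4, hB6]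
      linear_combination (108 * X ^ 2 + 54 * b2 * X) * hb8
    rw [this, hX]; ring
  have h3B : ¬ (3 : ℤ) ∣ B6 := by
    intro h
    apply h3
    have h1 : (3 : ℤ) ∣ X ^ 3 := by
      have : X ^ 3 = B6 - 3 * (9 * b6 + 6 * b4 * X + b2 * X ^ 2 + X ^ 3) := by
        rw [hB6]; ring
      rw [this]
      exact h.sub (dvd_mul_right _ _)
    exact Int.prime_three.dvd_of_dvd_pow h1
  have h3c : IsCoprime (3 : ℤ) B6 := (Prime.coprime_iff_not_dvd Int.prime_three).2 h3B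
  obtain ⟨s, hs⟩ : (3 : ℤ) ∣ B2 := by
    apply h3c.dvd_of_dvd_mul_right
    rw [hrel]
    exact dvd_mul_right _ _
  have hrel2 : s * B6 = B4 ^ 2 := by
    have : 3 * (s * B6) = 3 * B4 ^ 2 := by rw [← hrel, hs]; ring
    omega
  have hcop : IsCoprime s B6 := by
    apply iso3_cop_of hc
    intro p hp h1 h2
    have h4 : p ∣ B4 := by
      apply hp.dvd_of_dvd_pow (n := 2)
      rw [← hrel2]
      exact h1.mul_right _
    refine ⟨?_, ?_⟩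
    · rw [g4, hs]
      exact (((h1.mul_left 3).pow (by norm_num))).sub (h4.mul_left _)
    · have h5 : p ∣ 27 * D := by
        rw [gD]
        refine ((?_ : p ∣ -8 * B4 ^ 3).sub ?_).add ?_
        · exact (h4.pow (by norm_num)).mul_left _
        · exact (h2.pow (by norm_num))
        · exact h2.mul_left _
      rcases hp.dvd_or_dvd h5 with h6 | h6
      · exfalso
        have h7 : p ∣ 3 := by
          have : (27 : ℤ) = 3 ^ 3 := by norm_num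
          rw [this] at h6
          exact hp.dvd_of_dvd_pow h6
        have h8 : IsCoprime (3 : ℤ) B6 := h3c
        exact hp.not_isUnit (h8.isUnit_of_dvd' h7 h2)
      · exact h6
  have hB2m : s % 4 = 0 ∨ s % 4 = 3 := by
    have h1 : B2 % 4 = 0 ∨ B2 % 4 = 1 := by
      rw [hB2, f2]
      have : a1 ^ 2 % 4 = 0 ∨ a1 ^ 2 % 4 = 1 := iso3_sq4 a1
      omega
    omega
  have hB6m : B6 % 4 = 0 ∨ B6 % 4 = 3 := by
    have h1 : B6 = 4 * (7 * a3 ^ 2 + 27 * a6 + 9 * a4 * X + 5 * a1 * a3 * X - a1 * a3 * X + X ^ 2 * (a1 ^ 2 + 3 * a2) + X ^ 3)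
        - (a3 - X * a1) ^ 2 := by
      rw [hB6, f6, f4, f2]; ring
    have : (a3 - X * a1) ^ 2 % 4 = 0 ∨ (a3 - X * a1) ^ 2 % 4 = 1 := iso3_sq4 _
    omega
  obtain ⟨a, t, ha, ht, hat⟩ := iso3_signs (u := -s) (v := -B6) (w := B4)
    (by rw [IsCoprime.neg_neg_iff]; exact hcop) (by rw [← hrel2]; ring) (by omega) (by omega)
  have hs' : s = -a ^ 2 := by omega
  have hB6' : B6 = -t ^ 2 := by omega
  have hD27 : 27 * D = t ^ 3 * (a ^ 3 - t) := by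
    rw [gD, hs, hs', hB6', hat]; ring
  have h3t : IsCoprime (3 : ℤ) t := by
    refine (Prime.coprime_iff_not_dvd Int.prime_three).2 (fun h => h3B ?_)
    rw [hB6']
    exact (h.pow (by norm_num)).neg_right
  obtain ⟨b, hb⟩ : (27 : ℤ) ∣ a ^ 3 - t := by
    have h1 : IsCoprime (27 : ℤ) (t ^ 3) := by
      have : (27 : ℤ) = 3 ^ 3 := by norm_num
      rw [this]
      exact h3t.pow
    apply h1.dvd_of_dvd_mul_left
    rw [← hD27]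
    exact dvd_mul_right _ _
  have ht' : t = a ^ 3 - 27 * b := by omega
  refine ⟨a, b, Or.inr ⟨?_, ?_, ?_⟩⟩
  · rw [g4, hs, hs', hat, ht']; ring
  · rw [g6, hs, hs', hat, hB6', ht']; ring
  · have h1 : 27 * D = 27 * (b * (a ^ 3 - 27 * b) ^ 3) := by
      rw [hD27, hb, ht']; ring
    omega

/-- Semistable curves over `ℤ` with a root of the `3`-division polynomial (`X = 3 x`). -/
theorem iso3 (W : WeierstrassCurve ℤ) (hc : IsCoprime W.c₄ W.Δ) (X : ℤ)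
    (hX : X ^ 4 + W.b₂ * X ^ 3 + 9 * W.b₄ * X ^ 2 + 27 * W.b₆ * X + 27 * W.b₈ = 0) :
    ∃ a b : ℤ,
      (W.c₄ = a * (a ^ 3 - 24 * b) ∧ W.c₆ = -a ^ 6 + 36 * a ^ 3 * b - 216 * b ^ 2 ∧
        W.Δ = b ^ 3 * (a ^ 3 - 27 * b)) ∨
      (W.c₄ = a * (a ^ 3 + 216 * b) ∧ W.c₆ = -a ^ 6 + 540 * a ^ 3 * b + 5832 * b ^ 2 ∧
        W.Δ = b * (a ^ 3 - 27 * b) ^ 3) := by
  have hb8 := W.b_relation
  by_cases h3 : (3 : ℤ) ∣ X
  · obtain ⟨x, rfl⟩ := h3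
    exact iso3_caseA hc hX hb8 rfl rfl rfl rfl rfl rfl
  · exact iso3_caseB hc hX h3 hb8 rfl rfl rfl rfl rfl rfl

end Pool.Agent.Lib.MP_d8bd92_nt.Iso
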