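import Pool.Agent.Lib.MP_d8bd92_nt.ThG
import Pool.Agent.Lib.MP_d8bd92_nt.Iso.Eis

set_option autoImplicit false

/-! Rational subgroups of order seven of semistable curves. -/

namespace Pool.Agent.Lib.MP_d8bd92_nt.Iso

open WeierstrassCurve WeierstrassCurve.Affine Pool.Agent.Lib.Szpiro

/-- the quartic form which gives `c₆` -/
def S7 (u v : ℤ) : ℤ := u ^ 4 + 14 * u ^ 3 * v + 63 * u ^ 2 * v ^ 2 + 70 * u * v ^ 3 - 7 * v ^ 4

def S7' (u v : ℤ) : ℤ :=
  823543 * v ^ 4 + 235298 * v ^ 3 * u + 21609 * v ^ 2 * u ^ 2 + 490 * v * u ^ 3 - u ^ 4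

theorem mod27 : ∀ u v : ZMod 27, u ^ 2 + 13 * u * v + 49 * v ^ 2 = 0 → (9 * v ≠ 0) →
    (u ^ 4 + 14 * u ^ 3 * v + 63 * u ^ 2 * v ^ 2 + 70 * u * v ^ 3 - 7 * v ^ 4 = 0 ∨
      823543 * v ^ 4 + 235298 * v ^ 3 * u + 21609 * v ^ 2 * u ^ 2 + 490 * v * u ^ 3 - u ^ 4 = 0) →
    u - 7 * v = 0 := by
  decide +kernel

/-- the condition at the prime 3 -/
theorem cond3 (u v k : ℤ) (huv : IsCoprime u v) (h : u ^ 2 + 13 * u * v + 49 * v ^ 2 = k ^ 3)
    (hS : (27 : ℤ) ∣ S7 u v ∨ (27 : ℤ) ∣ S7' u v) (h3 : (3 : ℤ) ∣ k) : (27 : ℤ) ∣ u - 7 * v := by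
  have hk : (27 : ℤ) ∣ k ^ 3 := by
    obtain ⟨t, rfl⟩ := h3
    exact ⟨t ^ 3, by ring⟩
  have hv : ¬ (3 : ℤ) ∣ v := by
    intro hv
    have h1 : (3 : ℤ) ∣ u ^ 2 := by
      have h2 : u ^ 2 = k ^ 3 - v * (13 * u + 49 * v) := by linear_combination h
      rw [h2]
      exact dvd_sub (dvd_trans (by norm_num) hk) (Dvd.dvd.mul_right hv _)
    exact Int.prime_three.not_isUnit (huv.isUnit_of_dvd' (Int.prime_three.dvd_of_dvd_pow h1) hv)
  have e1 : ((u : ZMod 27)) ^ 2 + 13 * u * v + 49 * (v : ZMod 27) ^ 2 = 0 := by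
    have h1 : ((u ^ 2 + 13 * u * v + 49 * v ^ 2 : ℤ) : ZMod 27) = 0 := by
      rw [h]
      exact (ZMod.intCast_zmod_eq_zero_iff_dvd _ 27).2 (by exact_mod_cast hk)
    push_cast at h1
    exact h1
  have e2 : (9 : ZMod 27) * (v : ZMod 27) ≠ 0 := by
    intro h1
    have h2 : ((9 * v : ℤ) : ZMod 27) = 0 := by push_cast; exact h1
    rw [ZMod.intCast_zmod_eq_zero_iff_dvd] at h2
    apply hv
    obtain ⟨t, ht⟩ := h2
    push_cast at ht
    exact ⟨t, by linarith⟩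
  have e3 := mod27 u v e1 e2 (by
    rcases hS with h1 | h1
    · left
      have h2 : ((S7 u v : ℤ) : ZMod 27) = 0 := (ZMod.intCast_zmod_eq_zero_iff_dvd _ 27).2 (by exact_mod_cast h1)
      unfold S7 at h2
      push_cast at h2
      exact h2
    · right
      have h2 : ((S7' u v : ℤ) : ZMod 27) = 0 := (ZMod.intCast_zmod_eq_zero_iff_dvd _ 27).2 (by exact_mod_cast h1)
      unfold S7' at h2
      push_cast at h2
      exact h2)
  have h4 : ((u - 7 * v : ℤ) : ZMod 27) = 0 := by push_cast; exact e3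
  rw [ZMod.intCast_zmod_eq_zero_iff_dvd] at h4
  exact_mod_cast h4

/-- the parametrisation -/
theorem cube7 (u v k : ℤ) (huv : IsCoprime u v) (h : u ^ 2 + 13 * u * v + 49 * v ^ 2 = k ^ 3)
    (h3 : (3 : ℤ) ∣ k → (27 : ℤ) ∣ u - 7 * v) :
    ∃ a b : ℤ, IsCoprime a b ∧ v = a * b * (a - b) ∧ u = cub7 a b ∧ k = a ^ 2 - a * b + b ^ 2 := by
  suffices hmain : ∃ a b : ℤ, v = a * b * (a - b) ∧ u = cub7 a b by
    obtain ⟨a, b, e1, e2⟩ := hmain
    refine ⟨a, b, ?_, e1, e2, ?_⟩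
    · apply isCoprime_of_prime_dvd
      · rintro ⟨rfl, rfl⟩
        rw [e1, e2] at huv
        unfold cub7 at huv
        norm_num at huv
      · intro p hp h1 h2
        apply hp.not_isUnit
        apply huv.isUnit_of_dvd'
        · rw [e2]
          unfold cub7
          obtain ⟨t, rfl⟩ := h1
          obtain ⟨t', rfl⟩ := h2
          exact ⟨p ^ 2 * (t ^ 3 - 8 * t ^ 2 * t' + 5 * t * t' ^ 2 + t' ^ 3), by ring⟩
        · rw [e1]
          exact Dvd.dvd.mul_right (Dvd.dvd.mul_right h1 _) _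
    · have h4 : k ^ 3 = (a ^ 2 - a * b + b ^ 2) ^ 3 := by
        rw [← h, e1, e2]
        unfold cub7
        ring
      exact (Odd.strictMono_pow (by decide : Odd 3)).injective h4
  by_cases hk : (3 : ℤ) ∣ k
  · obtain ⟨w, hw⟩ := h3 hk
    obtain ⟨k', hk'⟩ := hk
    have hu : u = 7 * v + 27 * w := by linear_combination hw
    have hN : (2 * v + 3 * w) ^ 2 - (2 * v + 3 * w) * (3 * (v + 2 * w)) + (3 * (v + 2 * w)) ^ 2 = k' ^ 3 := by
      have h5 : 27 * ((2 * v + 3 * w) ^ 2 - (2 * v + 3 * w) * (3 * (v + 2 * w)) + (3 * (v + 2 * w)) ^ 2) =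
          27 * k' ^ 3 := by
        rw [hk', hu] at h
        linear_combination h
      linarith
    have hv : ¬ (3 : ℤ) ∣ v := by
      intro hv
      apply Int.prime_three.not_isUnit
      apply huv.isUnit_of_dvd' _ hv
      rw [hu]
      exact dvd_add (Dvd.dvd.mul_left hv _) ⟨9 * w, by ring⟩
    have hvw : IsCoprime v w := by
      rw [hu] at huv
      have h6 : IsCoprime (27 * w) v := by
        have := huv.add_mul_left_left (-7)
        have e : 7 * v + 27 * w + v * -7 = 27 * w := by ring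
        rwa [e] at this
      exact h6.of_mul_left_right.symm
    have hcop : IsCoprime (2 * v + 3 * w) (3 * (v + 2 * w)) := by
      apply IsCoprime.mul_right
      · apply IsCoprime.symm
        rw [Prime.coprime_iff_not_dvd Int.prime_three]
        intro h7
        apply hv
        have h8 : (3 : ℤ) ∣ 2 * v := by
          have : 2 * v = (2 * v + 3 * w) - 3 * w := by ring
          rw [this]
          exact dvd_sub h7 (dvd_mul_right _ _)
        omega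
      · obtain ⟨r, s, hrs⟩ := hvw
        exact ⟨2 * r - s, 2 * s - 3 * r, by linear_combination hrs⟩
    obtain ⟨a, b, e1, e2⟩ := Eis.cube_of_norm _ _ _ hcop (dvd_mul_right _ _) hN
    have e3 : v + 2 * w = a * b * (a - b) := by linarith
    have ew : w = 2 * (a * b * (a - b)) - (a ^ 3 - 3 * a * b ^ 2 + b ^ 3) := by
      rw [← e3, ← e1]; ring
    have ev : v = 2 * (a ^ 3 - 3 * a * b ^ 2 + b ^ 3) - 3 * (a * b * (a - b)) := by
      rw [← e3, ← e1]; ring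
    refine ⟨2 * b - a, a + b, ?_, ?_⟩
    · rw [ev]; ring
    · rw [hu, ev, ew]
      unfold cub7
      ring
  · have hcop : IsCoprime (u + 5 * v) (-3 * v) := by
      have h5 : IsCoprime (u + 5 * v) v := by
        have := huv.add_mul_left_left 5
        rwa [mul_comm v 5] at this
      apply IsCoprime.mul_right _ h5
      apply IsCoprime.neg_right
      apply IsCoprime.symm
      rw [Prime.coprime_iff_not_dvd Int.prime_three]
      intro h7
      apply hk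
      apply Int.prime_three.dvd_of_dvd_pow (n := 3)
      rw [← h]
      have e : u ^ 2 + 13 * u * v + 49 * v ^ 2 = (u + 5 * v) ^ 2 + 3 * (u * v + 8 * v ^ 2) := by ring
      rw [e]
      exact dvd_add (dvd_pow h7 (by norm_num)) (dvd_mul_right _ _)
    obtain ⟨a, b, e1, e2⟩ := Eis.cube_of_norm (u + 5 * v) (-3 * v) k hcop ⟨-v, by ring⟩ (by linear_combination h)
    have ev : v = -(a * b * (a - b)) := by linarith
    refine ⟨b, a, ?_, ?_⟩
    · rw [ev]; ring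
    · have eu : u = a ^ 3 - 3 * a * b ^ 2 + b ^ 3 - 5 * v := by linear_combination e1
      rw [eu, ev]
      unfold cub7
      ring

/-- Kraus' condition at 3 -/
theorem kraus3 (W : WeierstrassCurve ℤ) (h : (3 : ℤ) ∣ W.c₄) : (27 : ℤ) ∣ W.c₆ := by
  have h1 : (3 : ℤ) ∣ W.b₂ := by
    apply Int.prime_three.dvd_of_dvd_pow (n := 2)
    have e : W.b₂ ^ 2 = W.c₄ + 3 * (8 * W.b₄) := by unfold WeierstrassCurve.c₄; ring
    rw [e]
    exact dvd_add h (dvd_mul_right _ _)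
  obtain ⟨t, ht⟩ := h1
  refine ⟨-t ^ 3 + 4 * t * W.b₄ - 8 * W.b₆, ?_⟩
  unfold WeierstrassCurve.c₆
  rw [ht]
  ring

/-- 21 is not a square -/
theorem sq_ne_21 (k : ℤ) (h : k ^ 2 = 21) : False := by
  have h1 : k ≤ 4 := by nlinarith
  have h2 : -4 ≤ k := by nlinarith
  interval_cases k <;> omega

theorem pos_dvd_7 (m : ℤ) (h0 : 0 < m) (h : m ∣ 7) : m = 1 ∨ m = 7 := by
  have h9 : m ≤ 7 := Int.le_of_dvd (by norm_num) h
  interval_cases m <;> omega

theorem isUnit_sq (n : ℤ) (h : IsUnit (n ^ 2)) : n ^ 2 = 1 := by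
  rcases Int.isUnit_iff.1 h with h12 | h12
  · exact h12
  · have h13 := sq_nonneg n
    rw [h12] at h13
    exact absurd h13 (by norm_num)

theorem quad_ne_zero (α β : ℤ) (hβ0 : 0 < β) : α ^ 2 + 5 * α * β + β ^ 2 ≠ 0 := by
  intro h9
  have h10 : (2 * α + 5 * β) ^ 2 = 21 * β ^ 2 := by linear_combination 4 * h9
  obtain ⟨k, hk⟩ : β ∣ 2 * α + 5 * β :=
    (Int.pow_dvd_pow_iff (n := 2) (by norm_num)).1 ⟨21, by rw [h10]; ring⟩
  have h11 : k ^ 2 = 21 := by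
    apply mul_left_cancel₀ (pow_ne_zero 2 hβ0.ne')
    rw [hk] at h10
    linear_combination h10
  exact sq_ne_21 k h11

/-- the two families: `ℤ/7` and `μ₇` -/
theorem iso7 (W : WeierstrassCurve ℤ) (hΔ : W.Δ ≠ 0) (hc : IsCoprime W.c₄ W.Δ) (q h κ : ℚ) (hq : q ≠ 0)
    (h1 : (W.Δ : ℚ) = q ^ 2 * h) (h2 : (W.c₄ : ℚ) = κ * (h ^ 2 + 5 * h + 1))
    (h3 : κ ^ 3 = q ^ 2 * (h ^ 2 + 13 * h + 49)) :
    ∃ a b : ℤ, IsCoprime a b ∧
      ((W.c₄ = C47 a b ∧ W.Δ = (a * b * (a - b)) ^ 7 * cub7 a b) ∨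
       (W.c₄ = (a ^ 2 - a * b + b ^ 2) * (2401 * (a * b * (a - b)) ^ 2 + 245 * (a * b * (a - b)) * cub7 a b +
          cub7 a b ^ 2) ∧ W.Δ = a * b * (a - b) * cub7 a b ^ 7)) := by
  have h6 := W.c_relation
  have hk3 := kraus3 W
  generalize W.c₄ = c at *
  generalize W.Δ = D at *
  generalize W.c₆ = g at *
  obtain ⟨n, m, hm0, hnm, hqm⟩ : ∃ n d : ℤ, 0 < d ∧ IsCoprime n d ∧ q = (n : ℚ) / d :=
    ⟨q.num, q.den, by exact_mod_cast q.den_pos, by
      rw [Int.isCoprime_iff_gcd_eq_one]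
      have := q.reduced
      simpa [Int.gcd, Nat.Coprime] using this, by exact_mod_cast (Rat.num_div_den q).symm⟩
  obtain ⟨α, β, hβ0, hαβ, hrd⟩ : ∃ n d : ℤ, 0 < d ∧ IsCoprime n d ∧ h = (n : ℚ) / d :=
    ⟨h.num, h.den, by exact_mod_cast h.den_pos, by
      rw [Int.isCoprime_iff_gcd_eq_one]
      have := h.reduced
      simpa [Int.gcd, Nat.Coprime] using this, by exact_mod_cast (Rat.num_div_den h).symm⟩
  have hmq : (m : ℚ) ≠ 0 := by exact_mod_cast hm0.ne'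
  have hβq : (β : ℚ) ≠ 0 := by exact_mod_cast hβ0.ne'
  have hc3 : (c : ℚ) ^ 3 = q ^ 2 * (h ^ 2 + 13 * h + 49) * (h ^ 2 + 5 * h + 1) ^ 3 := by
    rw [h2, mul_pow, h3]
  have i1 : D * β * m ^ 2 = n ^ 2 * α := by
    have : (D : ℚ) * β * m ^ 2 = n ^ 2 * α := by
      rw [h1, hqm, hrd]
      field_simp
    exact_mod_cast this
  have i2 : c ^ 3 * β ^ 8 * m ^ 2 = n ^ 2 * ((α ^ 2 + 13 * α * β + 49 * β ^ 2) * (α ^ 2 + 5 * α * β + β ^ 2) ^ 3) := by
    have : (c : ℚ) ^ 3 * β ^ 8 * m ^ 2 =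
        n ^ 2 * ((α ^ 2 + 13 * α * β + 49 * β ^ 2) * (α ^ 2 + 5 * α * β + β ^ 2) ^ 3) := by
      rw [hc3, hqm, hrd]
      field_simp
    exact_mod_cast this
  have i3 : g ^ 2 * β ^ 8 * m ^ 2 = n ^ 2 * S7 α β ^ 2 := by
    have e : g ^ 2 = c ^ 3 - 1728 * D := by linear_combination h6
    have h7 : β * (g ^ 2 * β ^ 8 * m ^ 2) = β * (n ^ 2 * S7 α β ^ 2) := by
      rw [e]
      unfold S7
      linear_combination β * i2 - 1728 * β ^ 8 * i1
    exact mul_left_cancel₀ hβ0.ne' h7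
  -- `β ^ 4 ∣ n`
  have hcA : IsCoprime β (α ^ 2 + 13 * α * β + 49 * β ^ 2) := by
    have e : α ^ 2 + 13 * α * β + 49 * β ^ 2 = α ^ 2 + β * (13 * α + 49 * β) := by ring
    rw [e]
    exact IsCoprime.add_mul_left_right hαβ.symm.pow_right _
  have hcB : IsCoprime β (α ^ 2 + 5 * α * β + β ^ 2) := by
    have e : α ^ 2 + 5 * α * β + β ^ 2 = α ^ 2 + β * (5 * α + β) := by ring
    rw [e]
    exact IsCoprime.add_mul_left_right hαβ.symm.pow_right _
  obtain ⟨n', hn'⟩ : β ^ 4 ∣ n := by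
    apply (Int.pow_dvd_pow_iff (n := 2) (by norm_num)).1
    have h8 : (β ^ 4) ^ 2 ∣ n ^ 2 * ((α ^ 2 + 13 * α * β + 49 * β ^ 2) * (α ^ 2 + 5 * α * β + β ^ 2) ^ 3) :=
      ⟨c ^ 3 * m ^ 2, by rw [← i2]; ring⟩
    exact ((hcA.mul_right hcB.pow_right).pow_left.pow_left).dvd_of_dvd_mul_right h8
  have j1 : D * m ^ 2 = β ^ 7 * n' ^ 2 * α := by
    apply mul_left_cancel₀ hβ0.ne'
    rw [hn'] at i1
    linear_combination i1
  have j2 : c ^ 3 * m ^ 2 = n' ^ 2 * ((α ^ 2 + 13 * α * β + 49 * β ^ 2) * (α ^ 2 + 5 * α * β + β ^ 2) ^ 3) := by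
    apply mul_left_cancel₀ (pow_ne_zero 8 hβ0.ne')
    rw [hn'] at i2
    linear_combination i2
  have j3 : g ^ 2 * m ^ 2 = n' ^ 2 * S7 α β ^ 2 := by
    apply mul_left_cancel₀ (pow_ne_zero 8 hβ0.ne')
    rw [hn'] at i3
    linear_combination i3
  rw [hn'] at hnm
  have hn'm : IsCoprime n' m := hnm.of_mul_left_right
  have hβm : IsCoprime β m := (IsCoprime.pow_left_iff (by norm_num)).1 hnm.of_mul_left_left
  have hn2 : n' ^ 2 = 1 := by
    have h9 : n' ^ 2 ∣ c ^ 3 := (hn'm.pow_left.pow_right).dvd_of_dvd_mul_right ⟨_, j2⟩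
    have h10 : n' ^ 2 ∣ D := (hn'm.pow_left.pow_right).dvd_of_dvd_mul_right ⟨β ^ 7 * α, by rw [j1]; ring⟩
    exact isUnit_sq n' ((hc.pow_left (m := 3)).isUnit_of_dvd' h9 h10)
  rw [hn2] at j1 j2 j3
  obtain ⟨α1, hα1⟩ : m ^ 2 ∣ α := by
    have h9 : m ^ 2 ∣ β ^ 7 * α := ⟨D, by linear_combination -j1⟩
    exact (hβm.symm.pow).dvd_of_dvd_mul_left h9
  have hm49 : m ∣ 7 := by
    apply (Int.pow_dvd_pow_iff (n := 2) (by norm_num)).1
    have h9 : m ^ 2 ∣ (α ^ 2 + 13 * α * β + 49 * β ^ 2) * (α ^ 2 + 5 * α * β + β ^ 2) ^ 3 :=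
      ⟨c ^ 3, by linear_combination -j2⟩
    have h10 : IsCoprime m (α ^ 2 + 5 * α * β + β ^ 2) := by
      have e : α ^ 2 + 5 * α * β + β ^ 2 = β ^ 2 + m * (m * α1 * (α + 5 * β)) := by
        linear_combination (α + 5 * β) * hα1
      rw [e]
      exact IsCoprime.add_mul_left_right hβm.symm.pow_right _
    have h11 : m ^ 2 ∣ α ^ 2 + 13 * α * β + 49 * β ^ 2 := (h10.pow).dvd_of_dvd_mul_right h9
    have h12 : m ^ 2 ∣ 7 ^ 2 * β ^ 2 := by
      have e : 7 ^ 2 * β ^ 2 = (α ^ 2 + 13 * α * β + 49 * β ^ 2) - m ^ 2 * (α1 * (α + 13 * β)) := by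
        linear_combination -(α + 13 * β) * hα1
      rw [e]
      exact dvd_sub h11 (dvd_mul_right _ _)
    exact (hβm.symm.pow).dvd_of_dvd_mul_right h12
  have hm17 : m = 1 ∨ m = 7 := pos_dvd_7 m hm0 hm49
  have hB0 : α ^ 2 + 5 * α * β + β ^ 2 ≠ 0 := quad_ne_zero α β hβ0
  rcases hm17 with rfl | rfl
  · -- `m = 1`
    obtain ⟨k, hk⟩ : α ^ 2 + 5 * α * β + β ^ 2 ∣ c :=
      (Int.pow_dvd_pow_iff (n := 3) (by norm_num)).1 ⟨α ^ 2 + 13 * α * β + 49 * β ^ 2, by linear_combination j2⟩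
    have hkA : α ^ 2 + 13 * α * β + 49 * β ^ 2 = k ^ 3 := by
      apply mul_left_cancel₀ (pow_ne_zero 3 hB0)
      rw [hk] at j2
      linear_combination -j2
    obtain ⟨a, b, hab, e1, e2, e3⟩ := cube7 α β k hαβ hkA (fun h3k => by
      apply cond3 α β k hαβ hkA _ h3k
      left
      have h9 : (27 : ℤ) ∣ g := hk3 (by rw [hk]; exact Dvd.dvd.mul_left h3k _)
      have h10 : g ^ 2 = S7 α β ^ 2 := by linear_combination j3
      rcases sq_eq_sq_iff_eq_or_eq_neg.1 h10 with h11 | h11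
      · rw [← h11]; exact h9
      · have : S7 α β = -g := by rw [h11]; ring
        rw [this]
        exact (dvd_neg).2 h9)
    refine ⟨a, b, hab, Or.inl ⟨?_, ?_⟩⟩
    · rw [hk, e1, e2, e3]
      unfold C47 cub7
      ring
    · have h9 : D = β ^ 7 * α := by linear_combination j1
      rw [h9, e1, e2]
  · -- `m = 7`
    have hα : α = 49 * α1 := by rw [hα1]; norm_num
    have hD : D = β ^ 7 * α1 := by
      have : 49 * D = 49 * (β ^ 7 * α1) := by rw [hα] at j1; linear_combination j1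
      linarith
    have j2' : c ^ 3 = (β ^ 2 + 13 * β * α1 + 49 * α1 ^ 2) * (α ^ 2 + 5 * α * β + β ^ 2) ^ 3 := by
      have : 49 * c ^ 3 = 49 * ((β ^ 2 + 13 * β * α1 + 49 * α1 ^ 2) * (α ^ 2 + 5 * α * β + β ^ 2) ^ 3) := by
        have e : α ^ 2 + 13 * α * β + 49 * β ^ 2 = 49 * (β ^ 2 + 13 * β * α1 + 49 * α1 ^ 2) := by
          rw [hα]; ring
        rw [e] at j2
        linear_combination j2
      linarith
    have j3' : g ^ 2 = S7' β α1 ^ 2 := by
      have : 49 * g ^ 2 = 49 * S7' β α1 ^ 2 := by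
        have e : S7 α β = 7 * S7' β α1 := by
          rw [hα]; unfold S7 S7'; ring
        rw [e] at j3
        linear_combination j3
      linarith
    obtain ⟨k, hk⟩ : α ^ 2 + 5 * α * β + β ^ 2 ∣ c :=
      (Int.pow_dvd_pow_iff (n := 3) (by norm_num)).1 ⟨β ^ 2 + 13 * β * α1 + 49 * α1 ^ 2, by rw [j2']; ring⟩
    have hkA : β ^ 2 + 13 * β * α1 + 49 * α1 ^ 2 = k ^ 3 := by
      apply mul_left_cancel₀ (pow_ne_zero 3 hB0)
      rw [hk] at j2'
      linear_combination -j2'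
    have hcop : IsCoprime β α1 := by
      rw [hα] at hαβ
      exact hαβ.symm.of_mul_right_right
    obtain ⟨a, b, hab, e1, e2, e3⟩ := cube7 β α1 k hcop hkA (fun h3k => by
      apply cond3 β α1 k hcop hkA _ h3k
      right
      have h9 : (27 : ℤ) ∣ g := hk3 (by rw [hk]; exact Dvd.dvd.mul_left h3k _)
      rcases sq_eq_sq_iff_eq_or_eq_neg.1 j3' with h11 | h11
      · rw [← h11]; exact h9
      · have : S7' β α1 = -g := by rw [h11]; ring
        rw [this]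
        exact (dvd_neg).2 h9)
    refine ⟨a, b, hab, Or.inr ⟨?_, ?_⟩⟩
    · rw [hk, hα, ← e1, ← e2, ← e3]
      ring
    · rw [hD, ← e1, ← e2]
      ring

end Pool.Agent.Lib.MP_d8bd92_nt.Iso
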