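import Pool.Agent.Lib.MP_d8bd92_nt.Iso.Cnt

set_option autoImplicit false

/-! A Galois stable subgroup of order two is generated by a rational point. -/

namespace Pool.Agent.Lib.MP_d8bd92_nt.Iso

open WeierstrassCurve WeierstrassCurve.Affine

theorem two_sub (K : Type*) [Field K] [DecidableEq K] [Algebra ℚ K] [IsGalois ℚ K]
    (W : WeierstrassCurve ℤ) (P : (W.baseChange K).toAffine.Point) (hP : addOrderOf P = 2)
    (hσ : ∀ σ : K ≃ₐ[ℚ] K, ∃ k : ℕ,
      Affine.Point.map (W' := W) (σ : K →ₐ[ℚ] K) P = k • P) :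
    ∃ P : (W.baseChange ℚ).toAffine.Point, addOrderOf P = 2 := by
  rcases P with _ | ⟨x, y, h⟩
  · have h0 : (Affine.Point.zero : (W.baseChange K).toAffine.Point) = 0 := rfl
    rw [h0, addOrderOf_zero] at hP
    omega
  · have h2 : (2 : ℕ) • (Point.some x y h : (W.baseChange K).toAffine.Point) = 0 := by
      rw [← hP]; exact addOrderOf_nsmul_eq_zero _
    have hx : ∀ σ : K ≃ₐ[ℚ] K, σ x = x ∧ σ y = y := by
      intro σ
      obtain ⟨k, hk⟩ := hσ σ
      have hk2 : k • (Point.some x y h : (W.baseChange K).toAffine.Point) =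
          (k % 2) • (Point.some x y h : (W.baseChange K).toAffine.Point) := by
        conv_lhs => rw [← Nat.div_add_mod k 2, add_nsmul, mul_nsmul, h2, nsmul_zero, zero_add]
      rw [hk2, Affine.Point.map_some] at hk
      have hlt : k % 2 < 2 := Nat.mod_lt _ (by norm_num)
      generalize k % 2 = i at *
      interval_cases i
      · rw [zero_nsmul] at hk
        exact absurd hk (Affine.Point.some_ne_zero _)
      · rw [one_nsmul] at hk
        exact Affine.Point.some.inj hk
    obtain ⟨x', hx'⟩ := IntermediateField.mem_bot.1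
      ((InfiniteGalois.mem_bot_iff_fixed (k := ℚ) x).2 (fun σ => (hx σ).1))
    obtain ⟨y', hy'⟩ := IntermediateField.mem_bot.1
      ((InfiniteGalois.mem_bot_iff_fixed (k := ℚ) y).2 (fun σ => (hx σ).2))
    subst hx' hy'
    have hns : (W.baseChange ℚ).toAffine.Nonsingular x' y' :=
      (Affine.baseChange_nonsingular (W := W) (f := Algebra.ofId ℚ K) (Algebra.ofId ℚ K).injective x' y').1 h
    refine ⟨Point.some x' y' hns, ?_⟩
    have hm : Affine.Point.map (W' := W) (Algebra.ofId ℚ K) (Point.some x' y' hns) =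
        (Point.some _ _ h : (W.baseChange K).toAffine.Point) := rfl
    have hinj := Affine.Point.map_injective (W' := W) (f := Algebra.ofId ℚ K)
    rw [← hP, ← hm, addOrderOf_injective _ hinj]

theorem sub_of_point' (K : Type*) [Field K] [DecidableEq K] [Algebra ℚ K]
    (W : WeierstrassCurve ℤ) (Q : (W.baseChange ℚ).toAffine.Point) {p : ℕ} (hQ : addOrderOf Q = p) :
    ∃ P : (W.baseChange K).toAffine.Point, addOrderOf P = p ∧
      ∀ σ : K ≃ₐ[ℚ] K, ∃ k : ℕ, Affine.Point.map (W' := W) (σ : K →ₐ[ℚ] K) P = k • P := by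
  have hinj := Affine.Point.map_injective (W' := W) (f := Algebra.ofId ℚ K)
  refine ⟨Affine.Point.map (W' := W) (Algebra.ofId ℚ K) Q, ?_, fun σ => ⟨1, ?_⟩⟩
  · rw [addOrderOf_injective _ hinj, hQ]
  · have h : (σ : K →ₐ[ℚ] K).comp (Algebra.ofId ℚ K) = Algebra.ofId ℚ K := Subsingleton.elim _ _
    rw [one_nsmul, Affine.Point.map_map, h]

open scoped Classical in
theorem sub_of_point (W : WeierstrassCurve ℤ) (Q : (W.baseChange ℚ).toAffine.Point) {p : ℕ}
    (hQ : addOrderOf Q = p) : RatSub p W :=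
  sub_of_point' (AlgebraicClosure ℚ) W Q hQ

end Pool.Agent.Lib.MP_d8bd92_nt.Iso
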