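import Pool.Agent.Lib.MP_d8bd92_nt.Iso.Cnt
import Pool.Agent.Lib.MP_d8bd92_nt.Iso.Iso3
import Pool.Agent.Lib.MP_d8bd92_nt.Iso.Iso3b
import Pool.Agent.Lib.MP_d8bd92_nt.T3.Defs

set_option autoImplicit false

/-!
Semistable curves with a rational isogeny of degree three, counted by conductor.
-/

namespace Pool.Agent.Lib.MP_d8bd92_nt

open Finset Pool.Agent.Lib.Szpiro WeierstrassCurve

namespace Iso

/-- a Galois stable subgroup of order three -/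
theorem three_sub (K : Type*) [Field K] [DecidableEq K] [Algebra ℚ K] [IsGalois ℚ K]
    (W : WeierstrassCurve ℤ) (P : (W.baseChange K).toAffine.Point) (hP : addOrderOf P = 3)
    (hσ : ∀ σ : K ≃ₐ[ℚ] K, ∃ k : ℕ,
      Affine.Point.map (W' := W) (σ : K →ₐ[ℚ] K) P = k • P) :
    ∃ X : ℤ, X ^ 4 + W.b₂ * X ^ 3 + 9 * W.b₄ * X ^ 2 + 27 * W.b₆ * X + 27 * W.b₈ = 0 := by
  refine X_of_subgroup K W P hP (fun σ => ?_)
  obtain ⟨k, hk⟩ := hσ σ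
  have h3 : (3 : ℕ) • P = 0 := by rw [← hP]; exact addOrderOf_nsmul_eq_zero _
  have hk3 : k • P = (k % 3) • P := by
    conv_lhs => rw [← Nat.div_add_mod k 3, add_nsmul, mul_nsmul, h3, nsmul_zero, zero_add]
  rw [hk3] at hk
  have hlt : k % 3 < 3 := Nat.mod_lt _ (by norm_num)
  generalize k % 3 = i at *
  interval_cases i
  · rw [zero_nsmul] at hk
    have h5 := Affine.Point.map_injective (W' := W) (f := (σ : K →ₐ[ℚ] K))
    have h6 : P = 0 := h5 (by rw [hk, map_zero])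
    rw [h6, addOrderOf_zero] at hP
    omega
  · left
    rw [one_nsmul] at hk
    exact hk
  · right
    rw [hk, eq_neg_iff_add_eq_zero, ← h3, succ_nsmul P 2]

end Iso

namespace T3

/-- the pair `(b, a³ - 27 b)` -/
theorem sub3_pair (Y κ : ℝ) (c D : ℤ) (hc : IsCoprime c D) (hD : D ≠ 0) (a b : ℤ) (i j : ℕ) (hi : 1 ≤ i) (hj : 1 ≤ j)
    (hac : a ∣ c) (e3 : D = b ^ i * (a ^ 3 - 27 * b) ^ j)
    (hN : ((rd D.natAbs : ℕ) : ℝ) ≤ Y) (hDκ : ((D.natAbs : ℕ) : ℝ) ≤ Y ^ κ) :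
    (b, a ^ 3 - 27 * b) ∈ PairSet3 κ Y := by
  have hne : b ^ i * (a ^ 3 - 27 * b) ^ j ≠ 0 := by rw [← e3]; exact hD
  have hb0 : b ≠ 0 := by
    intro h0
    apply hne
    rw [h0, zero_pow (by omega), zero_mul]
  have hd0 : a ^ 3 - 27 * b ≠ 0 := by
    intro h0
    apply hne
    rw [h0, zero_pow (by omega), mul_zero]
  have hbD : b ∣ D := by
    rw [e3]
    exact Dvd.dvd.mul_right (dvd_pow_self _ (by omega)) _
  have hdD : a ^ 3 - 27 * b ∣ D := by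
    rw [e3]
    exact Dvd.dvd.mul_left (dvd_pow_self _ (by omega)) _
  have hab : IsCoprime a b := by
    have h1 : IsCoprime a D := hc.of_isCoprime_of_dvd_left hac
    exact h1.of_isCoprime_of_dvd_right hbD
  have h3a : IsCoprime (3 : ℤ) a := by
    rw [Prime.coprime_iff_not_dvd Int.prime_three]
    intro h3
    have h8 : (3 : ℤ) ∣ D :=
      (dvd_sub (dvd_pow h3 (by norm_num)) ⟨9 * b, by ring⟩ : (3 : ℤ) ∣ a ^ 3 - 27 * b).trans hdD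
    exact Int.prime_three.not_isUnit (hc.isUnit_of_dvd' (h3.trans hac) h8)
  have h27 : IsCoprime (27 * b) (a ^ 3 - 27 * b) := by
    have h7 : IsCoprime (27 * b) (a ^ 3) := by
      apply IsCoprime.pow_right
      apply IsCoprime.mul_left _ hab.symm
      have : (27 : ℤ) = 3 ^ 3 := by norm_num
      rw [this]
      exact IsCoprime.pow_left h3a
    have h8 : a ^ 3 - 27 * b = a ^ 3 + (27 * b) * (-1) := by ring
    rw [h8]
    exact IsCoprime.add_mul_left_right h7 (-1)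
  have hbd : IsCoprime b (a ^ 3 - 27 * b) := (IsCoprime.mul_left_iff.mp h27).2
  have h3b : IsCoprime (3 * b) (a ^ 3 - 27 * b) := by
    have h9 : IsCoprime (9 * (3 * b)) (a ^ 3 - 27 * b) := by
      have e9 : (9 : ℤ) * (3 * b) = 27 * b := by ring
      rw [e9]
      exact h27
    exact (IsCoprime.mul_left_iff.mp h9).2
  have hcop : Nat.Coprime b.natAbs (a ^ 3 - 27 * b).natAbs := by
    rw [← Int.isCoprime_iff_nat_coprime]; exact hbd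
  have hN' : D.natAbs = b.natAbs ^ i * (a ^ 3 - 27 * b).natAbs ^ j := by
    rw [e3, Int.natAbs_mul, Int.natAbs_pow, Int.natAbs_pow]
  have hb1 : 1 ≤ b.natAbs := Int.natAbs_pos.mpr hb0
  have hd1 : 1 ≤ (a ^ 3 - 27 * b).natAbs := Int.natAbs_pos.mpr hd0
  have hrd : rd b.natAbs * rd (a ^ 3 - 27 * b).natAbs = rd D.natAbs := by
    rw [hN', rd_mul_coprime _ _ (by positivity) (by positivity)
      (Nat.Coprime.pow_left i (Nat.Coprime.pow_right j hcop))]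
    congr 1
    · unfold rd
      rw [Nat.primeFactors_pow _ (by omega)]
    · unfold rd
      rw [Nat.primeFactors_pow _ (by omega)]
  have hle : ∀ x : ℤ, x ∣ D → ((x.natAbs : ℕ) : ℝ) ≤ Y ^ κ := by
    intro x hx
    refine le_trans ?_ hDκ
    exact_mod_cast Nat.le_of_dvd (Int.natAbs_pos.mpr hD) (Int.natAbs_dvd_natAbs.mpr hx)
  refine ⟨hb0, hd0, h3b, ⟨a, by ring⟩, ?_, hle _ hbD, hle _ hdD⟩
  have : ((rd b.natAbs : ℕ) : ℝ) * ((rd (a ^ 3 - 27 * b).natAbs : ℕ) : ℝ) =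
      ((rd D.natAbs : ℕ) : ℝ) := by exact_mod_cast hrd
  rw [this]
  exact hN

/-- power saving for a family given by the pairs `(b, a³ - 27 b)` -/
theorem sub3_family (κ : ℝ) (H : Few3 κ (fun _ _ => True)) (Q : WeierstrassCurve ℤ → Prop)
    (G G' : ℤ → ℤ → ℤ) (i j : ℕ) (hi : 1 ≤ i) (hj : 1 ≤ j)
    (hQ : ∀ W : WeierstrassCurve ℤ, Q W → ∃ a b : ℤ, W.c₄ = G a b ∧ W.c₆ = G' a b ∧ a ∣ W.c₄ ∧
      W.Δ = b ^ i * (a ^ 3 - 27 * b) ^ j) :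
    ∃ C δ : ℝ, 0 < C ∧ 0 < δ ∧ ∀ Y : ℝ, 1 ≤ Y →
      (predSet Q Y κ).Finite ∧ ((predSet Q Y κ).ncard : ℝ) ≤ C * Y ^ (3 / 4 - δ) := by
  classical
  obtain ⟨C, δ, hC, hδ, hP⟩ := H
  refine ⟨C, δ, hC, hδ, fun Y hY => ?_⟩
  have hpar : ∀ c : ℤ × ℤ, ∃ t : ℤ × ℤ, c ∈ predSet Q Y κ →
      (c.1 = G t.1 t.2 ∧ c.2 = G' t.1 t.2 ∧ (t.2, t.1 ^ 3 - 27 * t.2) ∈ PairSet3 κ Y) := by
    intro c
    by_cases hc : c ∈ predSet Q Y κ
    · obtain ⟨W, h4, h6, hΔ, hss, hQW, hN, hD⟩ := hc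
      obtain ⟨a, b, e1, e2, e3, e4⟩ := hQ W hQW
      exact ⟨(a, b), fun _ => ⟨h4.symm.trans e1, h6.symm.trans e2,
        sub3_pair Y κ W.c₄ W.Δ hss hΔ a b i j hi hj e3 e4 hN hD⟩⟩
    · exact ⟨0, fun h => absurd h hc⟩
  choose t ht using hpar
  obtain ⟨f, hf⟩ : ∃ f : ℤ × ℤ → ℤ × ℤ, f = fun c => ((t c).2, (t c).1 ^ 3 - 27 * (t c).2) :=
    ⟨_, rfl⟩
  have hinj : Set.InjOn f (predSet Q Y κ) := by
    intro c hc c' hc' hcc
    rw [hf] at hcc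
    simp only [Prod.mk.injEq] at hcc
    obtain ⟨h1, h2⟩ := hcc
    obtain ⟨e2, e3, _⟩ := ht c hc
    obtain ⟨e2', e3', _⟩ := ht c' hc'
    have h3 : (t c).1 ^ 3 = (t c').1 ^ 3 := by rw [h1] at h2; linarith
    have h4 : (t c).1 = (t c').1 := (Odd.strictMono_pow (by decide : Odd 3)).injective h3
    exact Prod.ext (by rw [e2, e2', h4, h1]) (by rw [e3, e3', h4, h1])
  have hfin : (predSet Q Y κ).Finite := by
    apply Set.Finite.of_finite_image _ hinj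
    apply Set.Finite.subset (Finset.finite_toSet
      ((Finset.Icc (-((⌊Y ^ κ⌋₊ : ℕ) : ℤ)) (⌊Y ^ κ⌋₊ : ℕ)) ×ˢ (Finset.Icc (-((⌊Y ^ κ⌋₊ : ℕ) : ℤ)) (⌊Y ^ κ⌋₊ : ℕ))))
    rintro w ⟨c, hc, rfl⟩
    obtain ⟨_, _, _, _, _, h6, h7⟩ := (ht c hc).2.2
    have h8 : (t c).2.natAbs ≤ ⌊Y ^ κ⌋₊ := Nat.le_floor h6
    have h9 : ((t c).1 ^ 3 - 27 * (t c).2).natAbs ≤ ⌊Y ^ κ⌋₊ := Nat.le_floor h7
    rw [hf]
    simp only [Finset.mem_coe, Finset.mem_product, Finset.mem_Icc]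
    constructor <;> constructor <;> omega
  refine ⟨hfin, ?_⟩
  have hcard : (predSet Q Y κ).ncard = (hfin.toFinset.image f).card := by
    rw [Finset.card_image_of_injOn (by simpa using hinj), Set.ncard_eq_toFinset_card _ hfin]
  rw [hcard]
  apply hP Y hY
  intro w hw
  obtain ⟨c, hc, rfl⟩ := Finset.mem_image.1 hw
  have h5 := (ht c (by simpa using hc)).2.2
  rw [hf]
  exact ⟨h5, trivial⟩

open Iso in
/-- power saving for the semistable curves with a rational isogeny of degree three -/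
theorem subSet_three_few (κ : ℝ) (H : Few3 κ (fun _ _ => True)) :
    ∃ C δ : ℝ, 0 < C ∧ 0 < δ ∧ ∀ Y : ℝ, 1 ≤ Y →
      (predSet (RatSub 3) Y κ).Finite ∧ ((predSet (RatSub 3) Y κ).ncard : ℝ) ≤ C * Y ^ (3 / 4 - δ) := by
  obtain ⟨C1, δ1, hC1, hδ1, h1⟩ := sub3_family κ H
    (fun W => ∃ a b : ℤ, W.c₄ = a * (a ^ 3 - 24 * b) ∧ W.c₆ = -a ^ 6 + 36 * a ^ 3 * b - 216 * b ^ 2 ∧
        W.Δ = b ^ 3 * (a ^ 3 - 27 * b)) (fun a b => a * (a ^ 3 - 24 * b))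
    (fun a b => -a ^ 6 + 36 * a ^ 3 * b - 216 * b ^ 2) 3 1 (by norm_num) le_rfl (by
      rintro W ⟨a, b, e1, e2, e3⟩
      exact ⟨a, b, e1, e2, by rw [e1]; exact dvd_mul_right _ _, by rw [e3, pow_one]⟩)
  obtain ⟨C2, δ2, hC2, hδ2, h2⟩ := sub3_family κ H
    (fun W => ∃ a b : ℤ, W.c₄ = a * (a ^ 3 + 216 * b) ∧ W.c₆ = -a ^ 6 + 540 * a ^ 3 * b + 5832 * b ^ 2 ∧
        W.Δ = b * (a ^ 3 - 27 * b) ^ 3) (fun a b => a * (a ^ 3 + 216 * b))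
    (fun a b => -a ^ 6 + 540 * a ^ 3 * b + 5832 * b ^ 2) 1 3 le_rfl (by norm_num) (by
      rintro W ⟨a, b, e1, e2, e3⟩
      exact ⟨a, b, e1, e2, by rw [e1]; exact dvd_mul_right _ _, by rw [e3, pow_one]⟩)
  refine ⟨C1 + C2, min δ1 δ2, by positivity, lt_min hδ1 hδ2, fun Y hY => ?_⟩
  obtain ⟨a1, a2⟩ := h1 Y hY
  obtain ⟨b1, b2⟩ := h2 Y hY
  have hsub : predSet (RatSub 3) Y κ ⊆
      predSet (fun W => ∃ a b : ℤ, W.c₄ = a * (a ^ 3 - 24 * b) ∧ W.c₆ = -a ^ 6 + 36 * a ^ 3 * b - 216 * b ^ 2 ∧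
        W.Δ = b ^ 3 * (a ^ 3 - 27 * b)) Y κ ∪
      predSet (fun W => ∃ a b : ℤ, W.c₄ = a * (a ^ 3 + 216 * b) ∧ W.c₆ = -a ^ 6 + 540 * a ^ 3 * b + 5832 * b ^ 2 ∧
        W.Δ = b * (a ^ 3 - 27 * b) ^ 3) Y κ := by
    rintro c ⟨W, h4, h6, hΔ, hss, ⟨P, hP, hσ⟩, hN, hD⟩
    have := isGalois_Qbar
    classical
    obtain ⟨X, hX⟩ := three_sub (AlgebraicClosure ℚ) W P hP hσ
    obtain ⟨a, b, h | h⟩ := iso3 W hss X hX
    · exact Or.inl ⟨W, h4, h6, hΔ, hss, ⟨a, b, h⟩, hN, hD⟩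
    · exact Or.inr ⟨W, h4, h6, hΔ, hss, ⟨a, b, h⟩, hN, hD⟩
  refine ⟨(a1.union b1).subset hsub, ?_⟩
  have k1 := Set.ncard_le_ncard hsub (a1.union b1)
  have k2 := k1.trans (Set.ncard_union_le _ _)
  have k3 : ((predSet (RatSub 3) Y κ).ncard : ℝ) ≤ C1 * Y ^ (3 / 4 - δ1) + C2 * Y ^ (3 / 4 - δ2) := by
    refine le_trans ?_ (add_le_add a2 b2)
    exact_mod_cast k2
  have k4 : Y ^ (3 / 4 - δ1) ≤ Y ^ (3 / 4 - min δ1 δ2) :=
    Real.rpow_le_rpow_of_exponent_le hY (by have := min_le_left δ1 δ2; linarith)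
  have k5 : Y ^ (3 / 4 - δ2) ≤ Y ^ (3 / 4 - min δ1 δ2) :=
    Real.rpow_le_rpow_of_exponent_le hY (by have := min_le_right δ1 δ2; linarith)
  calc ((predSet (RatSub 3) Y κ).ncard : ℝ) ≤ C1 * Y ^ (3 / 4 - δ1) + C2 * Y ^ (3 / 4 - δ2) := k3
    _ ≤ C1 * Y ^ (3 / 4 - min δ1 δ2) + C2 * Y ^ (3 / 4 - min δ1 δ2) := by gcongr
    _ = (C1 + C2) * Y ^ (3 / 4 - min δ1 δ2) := by ring

end T3

end Pool.Agent.Lib.MP_d8bd92_nt
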